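import Pool.Agent.R337.BW.Stm

set_option autoImplicit false

/-!
Pieces ALE and DQ.
-/

namespace Pool.Agent.R337.BW

open Set Topology Filter Cardinal

theorem ale_not (g : ℕ → ℕ) : ∃ f ∈ (univ : Set (ℕ → ℕ)), ¬ LE f g := by
  refine ⟨fun n => g n + 1, mem_univ _, ?_⟩
  intro h
  obtain ⟨n, hn⟩ := h.exists
  have hn' : g n + 1 ≤ g n := hn
  omega

theorem ale_mk : #(univ : Set (ℕ → ℕ)) = 𝔠 := by
  rw [mk_univ]
  simp

theorem thm_ALE : S_ALE := by
  constructor
  · apply le_csInf
    · exact ⟨_, univ, rfl, ale_not⟩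
    · rintro c ⟨F, rfl, hF⟩
      by_contra hc
      rw [not_le, ← succ_aleph0, Order.lt_succ_iff, le_aleph0_iff_set_countable] at hc
      rcases F.eq_empty_or_nonempty with h0 | h0
      · obtain ⟨f, hf, -⟩ := hF 0
        rw [h0] at hf
        exact hf
      · obtain ⟨f, rfl⟩ := hc.exists_eq_range h0
        obtain ⟨x, ⟨i, rfl⟩, hx⟩ := hF (fun n => (Finset.range (n + 1)).sup (fun i => f i n))
        apply hx
        refine Filter.eventually_atTop.2 ⟨i, fun n hn => ?_⟩
        exact Finset.le_sup (f := fun i => f i n) (Finset.mem_range.2 (by omega))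
  · exact csInf_le' ⟨univ, ale_mk, ale_not⟩

/-- translation in the Cantor space -/
def tr (t x : X) : X := fun n => xor (x n) (t n)

theorem tr_tr (t x : X) : tr t (tr t x) = x := by
  funext n
  simp [tr]

theorem tr_cont (t : X) : Continuous (tr t) := by
  apply continuous_pi
  intro n
  exact (continuous_of_discreteTopology (f := fun b : Bool => xor b (t n))).comp
    (continuous_apply n)

theorem thm_DQ : S_DQ := by
  intro A hA
  obtain ⟨Q0, hQ0, hd⟩ := TopologicalSpace.exists_countable_dense X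
  have h1 : #((fun p : X × X => tr p.2 p.1) '' (A ×ˢ Q0)) < #X := by
    have e1 : #X = 𝔠 := by simp
    rw [e1]
    refine lt_of_le_of_lt mk_image_le ?_
    have e2 : #↥(A ×ˢ Q0) = #A * #Q0 := by
      rw [mk_congr (Equiv.Set.prod A Q0)]
      simp
    rw [e2]
    exact mul_lt_of_lt aleph0_le_continuum hA
      (lt_of_le_of_lt (le_aleph0_iff_set_countable.2 hQ0) aleph0_lt_continuum)
  have h2 : ∃ t : X, t ∉ (fun p : X × X => tr p.2 p.1) '' (A ×ˢ Q0) := by
    by_contra h
    push Not at h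
    have h3 : (fun p : X × X => tr p.2 p.1) '' (A ×ˢ Q0) = Set.univ := eq_univ_of_forall h
    rw [h3, mk_univ] at h1
    exact lt_irrefl _ h1
  obtain ⟨t, ht⟩ := h2
  refine ⟨tr t '' Q0, hQ0.image _, ?_, ?_⟩
  · have hs : Function.Surjective (tr t) := fun x => ⟨tr t x, tr_tr t x⟩
    exact hs.denseRange.dense_image (tr_cont t) hd
  · rw [Set.disjoint_left]
    rintro a ha ⟨q, hq, rfl⟩
    apply ht
    refine ⟨(tr t q, q), ⟨ha, hq⟩, ?_⟩
    funext n
    show xor (xor (q n) (t n)) (q n) = t n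
    cases q n <;> cases t n <;> rfl

end Pool.Agent.R337.BW
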