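import Pool.Agent.R337.BW.Stm

/-!
# BW-COD: the Baire space as a subspace of the Cantor space
-/

set_option autoImplicit false

namespace Pool.Agent.R337.BW

open Set Topology Filter Cardinal

namespace COD

/-- the places of the trues -/
def pos (f : ℕ → ℕ) : ℕ → ℕ
  | 0 => f 0
  | k + 1 => pos f k + 1 + f (k + 1)

theorem pos_strictMono (f : ℕ → ℕ) : StrictMono (pos f) :=
  strictMono_nat_of_lt_succ fun k => by simp only [pos]; omega

theorem le_pos (f : ℕ → ℕ) (k : ℕ) : k ≤ pos f k := (pos_strictMono f).le_apply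

open Classical in
/-- the code -/
noncomputable def c (f : N) : X := fun n => decide (n ∈ range (pos f))

theorem c_iff (f : N) (n : ℕ) : c f n = true ↔ n ∈ range (pos f) := by simp [c]

theorem key (a b : ℕ → ℕ) (ha : StrictMono a) (hb : StrictMono b) (k : ℕ)
    (h : ∀ n ≤ a k, (n ∈ range b ↔ n ∈ range a)) : ∀ i ≤ k, b i = a i := by
  intro i
  induction i using Nat.strong_induction_on with
  | _ i ih =>
    intro hi
    have haik : a i ≤ a k := ha.monotone hi
    obtain ⟨m, hm⟩ := (h (a i) haik).2 ⟨i, rfl⟩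
    have hmi : i ≤ m := by
      by_contra hlt
      have hlt : m < i := not_le.1 hlt
      have e1 := ih m hlt (by omega)
      have e2 := ha hlt
      omega
    have hle : b i ≤ a i := by rw [← hm]; exact hb.monotone hmi
    obtain ⟨m', hm'⟩ := (h (b i) (hle.trans haik)).1 ⟨i, rfl⟩
    have hmi' : i ≤ m' := by
      by_contra hlt
      have hlt : m' < i := not_le.1 hlt
      have e1 := ih m' hlt (by omega)
      have e2 := hb hlt
      omega
    have hge : a i ≤ b i := by rw [← hm']; exact ha.monotone hmi'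
    exact le_antisymm hle hge

theorem eq_of_pos (f g : ℕ → ℕ) (k : ℕ) (h : ∀ i ≤ k, pos g i = pos f i) : g k = f k := by
  cases k with
  | zero => exact h 0 le_rfl
  | succ k =>
    have h1 := h (k + 1) le_rfl
    have h2 := h k (by omega)
    simp only [pos] at h1
    omega

theorem eq_of_agree (f g : N) (k : ℕ) (h : ∀ n ≤ pos f k, c g n = c f n) : g k = f k := by
  apply eq_of_pos
  apply key _ _ (pos_strictMono f) (pos_strictMono g)
  intro n hn
  rw [← c_iff, ← c_iff, h n hn]

theorem pos_congr (f g : ℕ → ℕ) (k : ℕ) (h : ∀ i ≤ k, g i = f i) : pos g k = pos f k := by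
  induction k with
  | zero => exact h 0 le_rfl
  | succ k ih =>
    simp only [pos]
    rw [ih fun i hi => h i (by omega), h (k + 1) le_rfl]

theorem c_congr (f g : N) (n : ℕ) (h : ∀ i ≤ n, g i = f i) : c g n = c f n := by
  rw [Bool.eq_iff_iff, c_iff, c_iff]
  have hp : ∀ k ≤ n, pos g k = pos f k := fun k hk => pos_congr f g k fun i hi => h i (by omega)
  constructor
  · rintro ⟨k, hk⟩
    have : k ≤ n := hk ▸ le_pos g k
    exact ⟨k, by rw [← hp k this, hk]⟩
  · rintro ⟨k, hk⟩
    have : k ≤ n := hk ▸ le_pos f k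
    exact ⟨k, by rw [hp k this, hk]⟩

theorem ev_agree (f : N) (n : ℕ) : ∀ᶠ g in 𝓝 f, ∀ i ≤ n, g i = f i := by
  have h : ∀ i ∈ Finset.range (n + 1), ∀ᶠ g in 𝓝 f, g i = f i := by
    intro i _
    have h1 : Tendsto (fun g : N => g i) (𝓝 f) (𝓝 (f i)) := (continuous_apply i).tendsto f
    rw [nhds_discrete ℕ, tendsto_pure] at h1
    exact h1
  filter_upwards [(Filter.eventually_all_finset (Finset.range (n + 1))).2 h] with g hg i hi
  exact hg i (Finset.mem_range.2 (by omega))

theorem ev_agree' (x : X) (n : ℕ) : ∀ᶠ y in 𝓝 x, ∀ i ≤ n, y i = x i := by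
  have h : ∀ i ∈ Finset.range (n + 1), ∀ᶠ y in 𝓝 x, y i = x i := by
    intro i _
    have h1 : Tendsto (fun y : X => y i) (𝓝 x) (𝓝 (x i)) := (continuous_apply i).tendsto x
    rw [nhds_discrete Bool, tendsto_pure] at h1
    exact h1
  filter_upwards [(Filter.eventually_all_finset (Finset.range (n + 1))).2 h] with g hg i hi
  exact hg i (Finset.mem_range.2 (by omega))

theorem c_continuous : Continuous c := by
  apply continuous_pi
  intro n
  rw [continuous_iff_continuousAt]
  intro f
  apply Tendsto.congr' _ tendsto_const_nhds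
  filter_upwards [ev_agree f n] with g hg
  exact (c_congr f g n hg).symm

theorem c_embedding : IsEmbedding c := by
  refine ⟨isInducing_iff_nhds.2 fun f => le_antisymm ?_ ?_, ?_⟩
  · exact (c_continuous.tendsto f).le_comap
  · have h : Tendsto (fun g : N => g) (comap c (𝓝 (c f))) (𝓝 f) := by
      rw [tendsto_pi_nhds]
      intro k
      apply Tendsto.congr' _ tendsto_const_nhds
      filter_upwards [(ev_agree' (c f) (pos f k)).comap c] with g hg
      exact (eq_of_agree f g k hg).symm
    exact h
  · intro f g hfg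
    funext k
    exact eq_of_agree g f k fun n _ => by rw [hfg]

theorem exists_pos (a : ℕ → ℕ) (ha : StrictMono a) : ∃ f : ℕ → ℕ, pos f = a := by
  refine ⟨fun k => if k = 0 then a 0 else a k - a (k - 1) - 1, ?_⟩
  funext k
  induction k with
  | zero => simp [pos]
  | succ k ih =>
    simp only [pos]
    rw [ih]
    have := ha (Nat.lt_add_one k)
    simp only [Nat.add_one_ne_zero, if_false, Nat.add_sub_cancel]
    omega

theorem c_range : range c = {x : X | ∃ᶠ n in atTop, x n = true} := by
  ext x
  constructor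
  · rintro ⟨f, rfl⟩
    show ∃ᶠ n in atTop, c f n = true
    rw [Filter.frequently_atTop]
    intro n
    exact ⟨pos f n, le_pos f n, (c_iff f _).2 ⟨n, rfl⟩⟩
  · intro hx
    have hx : ∃ᶠ n in atTop, x n = true := hx
    have hinf : ({n | x n = true} : Set ℕ).Infinite := Nat.frequently_atTop_iff_infinite.1 hx
    obtain ⟨f, hf⟩ := exists_pos (Nat.nth fun n => x n = true) (Nat.nth_strictMono hinf)
    refine ⟨f, ?_⟩
    funext n
    rw [Bool.eq_iff_iff, c_iff, hf, Nat.range_nth_of_infinite hinf]
    rfl

end COD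

theorem thm_COD : S_COD := ⟨COD.c, COD.c_embedding, COD.c_range⟩

end Pool.Agent.R337.BW
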