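import Pool.Agent.R337.BW.LIM

/-! Project BW, piece CORE: the homeomorphism of the Cantor space. -/

set_option autoImplicit false

namespace Pool.Agent.R337.BW

open Set Topology Filter

lemma col_eq_one {A Q : Set X} {x : X} : col A Q x = 1 ↔ x ∈ A := by
  unfold col; split_ifs <;> simp_all

lemma col_eq_two {A Q : Set X} (h : Disjoint A Q) {x : X} : col A Q x = 2 ↔ x ∈ Q := by
  unfold col
  split_ifs with h1 h2
  · simp [Set.disjoint_left.1 h h1]
  · simp [h2]
  · simp [h2]

theorem thm_CORE (hstep : S_STEP) (hora : S_ORA) : S_CORE := by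
  intro κ A B Q Q' hκ hw hA hB hQ1 hQ2 hQ1' hQ2' hd hd'
  obtain ⟨T, h1, h2, h3, h4⟩ := hora κ A B Q Q' hκ hw hA hB hQ1 hQ2 hQ1' hQ2' hd hd'
  obtain ⟨h, hh⟩ := thm_LIM hstep T h1 (col A Q) (col B Q') h2 h3 h4
  refine ⟨h, ?_, ?_⟩
  · ext y
    constructor
    · rintro ⟨x, hx, rfl⟩
      exact col_eq_one.1 ((hh x).symm.trans (col_eq_one.2 hx))
    · intro hy
      refine ⟨h.symm y, ?_, h.apply_symm_apply y⟩
      refine col_eq_one.1 ((hh _).trans ?_)
      rw [h.apply_symm_apply]
      exact col_eq_one.2 hy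
  · ext y
    constructor
    · rintro ⟨x, hx, rfl⟩
      exact (col_eq_two hd').1 ((hh x).symm.trans ((col_eq_two hd).2 hx))
    · intro hy
      refine ⟨h.symm y, ?_, h.apply_symm_apply y⟩
      refine (col_eq_two hd).1 ((hh _).trans ?_)
      rw [h.apply_symm_apply]
      exact (col_eq_two hd').2 hy

end Pool.Agent.R337.BW
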