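import Pool.Agent.R337.BW.Stm

set_option autoImplicit false

namespace Pool.Agent.R337.BW

open Set Topology Filter Cardinal

namespace COVaux

theorem bounded_family {J : Type} (h : #J < bNum) (Φ : J → ℕ → ℕ) : ∃ g, ∀ j, LE (Φ j) g := by
  by_contra hne
  push Not at hne
  have h1 : bNum ≤ #(range Φ) := csInf_le' ⟨range Φ, rfl, fun g => by
    obtain ⟨j, hj⟩ := hne g
    exact ⟨Φ j, ⟨j, rfl⟩, hj⟩⟩
  exact absurd (h1.trans mk_range_le) (not_le.2 h)

end COVaux

open COVaux in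
theorem thm_COV : S_COV := by
  intro Z _ _ F hF S hS hdis
  let _ := TopologicalSpace.metrizableSpaceMetric Z
  set K : ℕ → ℕ → Set Z := fun n j => {z | ((j : ℕ) : ENNReal)⁻¹ ≤ Metric.infEDist z (F n)} with hK
  have hKc : ∀ n j, IsClosed (K n j) := fun n j =>
    isClosed_le continuous_const Metric.continuous_infEDist
  have hKm : ∀ n j j', j ≤ j' → K n j ⊆ K n j' := by
    intro n j j' hjj z hz
    have hz' : ((j : ℕ) : ENNReal)⁻¹ ≤ Metric.infEDist z (F n) := hz
    show ((j' : ℕ) : ENNReal)⁻¹ ≤ Metric.infEDist z (F n)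
    refine le_trans ?_ hz'
    exact ENNReal.inv_le_inv.2 (by exact_mod_cast hjj)
  have hKF : ∀ n j, Disjoint (K n j) (F n) := by
    intro n j
    rw [disjoint_left]
    intro z hz hzF
    have h1 : ((j : ℕ) : ENNReal)⁻¹ ≤ Metric.infEDist z (F n) := hz
    rw [Metric.infEDist_zero_of_mem hzF, le_zero_iff] at h1
    exact absurd h1 (by simp)
  have hex : ∀ z : S, ∀ n, ∃ j, (z : Z) ∈ K n j := by
    intro z n
    have h1 : (z : Z) ∉ closure (F n) := by
      rw [(hF n).closure_eq]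
      exact disjoint_left.1 (hdis n) z.2
    have h2 := Metric.infEDist_pos_iff_notMem_closure.2 h1
    obtain ⟨j, hj⟩ := ENNReal.exists_inv_nat_lt h2.ne'
    exact ⟨j, hj.le⟩
  choose φ hφ using hex
  obtain ⟨g, hg⟩ := bounded_family hS φ
  refine ⟨fun m => ⋂ n, K n (max (g n) m), ?_, ?_, ?_, ?_⟩
  · intro m m' hmm z hz
    rw [mem_iInter] at hz ⊢
    exact fun n => hKm n _ _ (max_le_max le_rfl hmm) (hz n)
  · intro m
    exact isClosed_iInter fun n => hKc n _
  · intro m n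
    exact (hKF n _).mono_left (iInter_subset _ n)
  · intro z hz
    obtain ⟨n0, hn0⟩ := eventually_atTop.1 (hg ⟨z, hz⟩)
    rw [mem_iUnion]
    refine ⟨∑ n ∈ Finset.range n0, φ ⟨z, hz⟩ n, ?_⟩
    rw [mem_iInter]
    intro n
    refine hKm n (φ ⟨z, hz⟩ n) _ ?_ (hφ ⟨z, hz⟩ n)
    by_cases h : n0 ≤ n
    · exact le_max_of_le_left (hn0 n h)
    · exact le_max_of_le_right (Finset.single_le_sum (f := fun n => φ ⟨z, hz⟩ n)
        (fun _ _ => Nat.zero_le _) (Finset.mem_range.2 (not_le.1 h)))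

end Pool.Agent.R337.BW
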