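import Pool.Agent.R337.BW.Stm

set_option autoImplicit false

namespace Pool.Agent.R337.BW

open Set Topology Filter Cardinal

namespace CYLaux

/-- put the word `s` in front -/
def sh (s : List Bool) (x : X) : X := fun n => if h : n < s.length then s[n] else x (n - s.length)

/-- drop the first `s.length` places -/
def dr (s : List Bool) (y : X) : X := fun n => y (n + s.length)

theorem sh_mem (s : List Bool) (x : X) : sh s x ∈ cyl s := by
  intro i h
  unfold sh
  rw [dif_pos h]

theorem dr_sh (s : List Bool) (x : X) : dr s (sh s x) = x := by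
  funext n
  unfold dr sh
  rw [dif_neg (by omega)]
  congr 1
  omega

theorem sh_dr (s : List Bool) {y : X} (hy : y ∈ cyl s) : sh s (dr s y) = y := by
  funext n
  unfold dr sh
  by_cases h : n < s.length
  · rw [dif_pos h]
    exact (hy n h).symm
  · rw [dif_neg h]
    show y (n - s.length + s.length) = y n
    rw [Nat.sub_add_cancel (not_lt.1 h)]

theorem cont_dr (s : List Bool) : Continuous (dr s) :=
  continuous_pi fun n => continuous_apply (n + s.length)

theorem cont_sh (s : List Bool) : Continuous (sh s) := by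
  refine continuous_pi fun n => ?_
  by_cases h : n < s.length
  · simp only [sh, dif_pos h]
    exact continuous_const
  · simp only [sh, dif_neg h]
    exact continuous_apply _

theorem isOpen_cyl (s : List Bool) : IsOpen (cyl s) := by
  have h : cyl s = ⋂ i : Fin s.length, {x : X | x i = s[i]} := by
    ext x
    simp only [cyl, mem_iInter]
    exact ⟨fun h i => h i i.2, fun h i hi => h ⟨i, hi⟩⟩
  rw [h]
  refine isOpen_iInter_of_finite fun i => ?_
  have h1 : IsOpen ({s[i]} : Set Bool) := isOpen_discrete _
  exact h1.preimage (continuous_apply (A := fun _ : ℕ => Bool) (i : ℕ))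

/-- the part of `A` behind `s` -/
def tl (s : List Bool) (A : Set X) : Set X := {x | sh s x ∈ A}

theorem tl_dense {κ : Cardinal.{0}} {A : Set X} (hA : KDense κ A) (s : List Bool) :
    KDense κ (tl s A) := by
  intro U hU hne
  have h1 : IsOpen (cyl s ∩ dr s ⁻¹' U) := (isOpen_cyl s).inter (hU.preimage (cont_dr s))
  have h2 : (cyl s ∩ dr s ⁻¹' U).Nonempty := by
    obtain ⟨x, hx⟩ := hne
    refine ⟨sh s x, sh_mem s x, ?_⟩
    rw [mem_preimage, dr_sh]
    exact hx
  rw [← hA _ h1 h2]
  refine Cardinal.mk_congr
    { toFun := fun x => ⟨sh s x.1, x.2.1, sh_mem s x.1, by rw [mem_preimage, dr_sh]; exact x.2.2⟩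
      invFun := fun y => ⟨dr s y.1, by
        show sh s (dr s y.1) ∈ A
        rw [sh_dr s y.2.2.1]
        exact y.2.1, y.2.2.2⟩
      left_inv := fun x => Subtype.ext (dr_sh s x.1)
      right_inv := fun y => Subtype.ext (sh_dr s y.2.2.1) }

/-- `A ∩ cyl s` and `tl s A` -/
def hom (s : List Bool) (A : Set X) : ↥(A ∩ cyl s) ≃ₜ ↥(tl s A) where
  toFun y := ⟨dr s y.1, by
    show sh s (dr s y.1) ∈ A
    rw [sh_dr s y.2.2]
    exact y.2.1⟩
  invFun x := ⟨sh s x.1, x.2, sh_mem s x.1⟩
  left_inv y := Subtype.ext (sh_dr s y.2.2)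
  right_inv x := Subtype.ext (dr_sh s x.1)
  continuous_toFun := ((cont_dr s).comp continuous_subtype_val).subtype_mk _
  continuous_invFun := ((cont_sh s).comp continuous_subtype_val).subtype_mk _

end CYLaux

open CYLaux in
theorem thm_CYL : S_CYL := by
  intro κ h A B hA hB s t
  obtain ⟨e⟩ := h (tl s A) (tl t B) (tl_dense hA s) (tl_dense hB t)
  exact ⟨(hom s A).trans (e.trans (hom t B).symm)⟩

end Pool.Agent.R337.BW
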