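import Pool.Agent.R337.BW.Stm

set_option autoImplicit false

namespace Pool.Agent.R337.BW

open Set Topology Filter Cardinal

namespace DOMaux

theorem bounded_of_lt {F : Set (ℕ → ℕ)} (h : #F < bNum) : ∃ g, ∀ f ∈ F, LE f g := by
  by_contra hne
  push Not at hne
  exact absurd (csInf_le' (s := {c | ∃ F : Set (ℕ → ℕ), #F = c ∧ ∀ g, ∃ f ∈ F, ¬ LE f g})
    ⟨F, rfl, hne⟩) (not_le.2 h)

theorem bounded_family {J : Type} (h : #J < bNum) (Φ : J → ℕ → ℕ) : ∃ g, ∀ j, LE (Φ j) g := by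
  obtain ⟨g, hg⟩ := bounded_of_lt (F := range Φ) (lt_of_le_of_lt mk_range_le h)
  exact ⟨g, fun j => hg _ ⟨j, rfl⟩⟩

end DOMaux

open DOMaux in
theorem thm_DOM : S_DOM := by
  classical
  intro I J _ hJ Φ
  obtain ⟨e, he⟩ := exists_injective_nat I
  obtain ⟨g, hg⟩ := bounded_family hJ
    (fun j n => if h : ∃ i, e i = n then Φ j h.choose else 0)
  refine ⟨fun i => g (e i), fun j => ?_⟩
  have h1 := hg j
  unfold LE at h1
  rw [← Nat.cofinite_eq_atTop, eventually_cofinite] at h1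
  refine (h1.preimage he.injOn).subset ?_
  intro i hi
  have h2 : ∃ i', e i' = e i := ⟨i, rfl⟩
  have h3 : h2.choose = i := he h2.choose_spec
  simp only [mem_preimage, mem_ofPred_eq]
  rw [dif_pos h2, h3]
  exact not_le.2 hi

end Pool.Agent.R337.BW
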