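import Pool.Agent.R337.BW.Stm

/-! Project BW: helper lemmas for FIN, NB and TR. -/

set_option autoImplicit false

namespace Pool.Agent.R337.BW.H506

open Set Topology Filter Cardinal Pool.Agent.R337.BW

/-- the eventually false sequences -/
def Q0 : Set X := {x | ∀ᶠ n in atTop, x n = false}

theorem Q0_countable : Q0.Countable := by
  classical
  refine (Set.countable_range (fun (s : Finset ℕ) (n : ℕ) => decide (n ∈ s))).mono ?_
  intro x hx
  obtain ⟨m, hm⟩ := eventually_atTop.mp hx
  refine ⟨(Finset.range m).filter (fun n => x n = true), ?_⟩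
  funext n
  simp only [Finset.mem_filter, Finset.mem_range]
  by_cases h : n < m
  · cases hx' : x n <;> simp [h]
  · have := hm n (not_lt.mp h)
    simp [this]

theorem dense_aux (b : Bool) (P : Set X) (hP : ∀ (x : X) (m : ℕ),
    (fun n => if n < m then x n else b) ∈ P) : Dense P := by
  intro x
  refine mem_closure_of_tendsto (f := fun m : ℕ => (fun n => if n < m then x n else b))
    (b := atTop) ?_ (Eventually.of_forall fun m => hP x m)
  rw [tendsto_pi_nhds]
  intro n
  refine tendsto_const_nhds.congr' ?_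
  filter_upwards [eventually_gt_atTop n] with m hm
  simp [hm]

theorem Q0_dense : Dense Q0 := by
  refine dense_aux false _ ?_
  intro x m
  filter_upwards [eventually_ge_atTop m] with n hn
  simp [not_lt.mpr hn]

theorem T_dense : Dense {x : X | ∃ᶠ n in atTop, x n = true} := by
  refine dense_aux true _ ?_
  intro x m
  refine Eventually.frequently ?_
  filter_upwards [eventually_ge_atTop m] with n hn
  simp [not_lt.mpr hn]

theorem compl_T : {x : X | ∃ᶠ n in atTop, x n = true}ᶜ = Q0 := by
  ext x
  simp only [mem_compl_iff, mem_ofPred_eq, not_frequently, Q0]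
  simp

theorem kd_image {κ : Cardinal.{0}} {Y Z : Type} [TopologicalSpace Y] [TopologicalSpace Z]
    {f : Y → Z} (hf : Continuous f) (hi : Function.Injective f) (hd : DenseRange f)
    {A : Set Y} (hA : KDense κ A) : KDense κ (f '' A) := by
  intro U hU hne
  have h1 : f '' A ∩ U = f '' (A ∩ f ⁻¹' U) := by
    rw [Set.image_inter_preimage]
  rw [h1, Cardinal.mk_image_eq hi]
  refine hA _ (hU.preimage hf) ?_
  obtain ⟨x, hx⟩ := hd.exists_mem_open hU hne
  exact ⟨x, hx⟩

theorem kd_preimage {κ : Cardinal.{0}} {Y Z : Type} [TopologicalSpace Y] [TopologicalSpace Z]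
    {f : Y → Z} (hf : IsEmbedding f) {A : Set Z} (hA : KDense κ A) (hs : A ⊆ range f) :
    KDense κ (f ⁻¹' A) := by
  intro U hU hne
  obtain ⟨V, hV, rfl⟩ := hf.isInducing.isOpen_iff.mp hU
  have h1 : f '' (f ⁻¹' A ∩ f ⁻¹' V) = A ∩ V := by
    rw [← Set.preimage_inter, Set.image_preimage_eq_of_subset]
    exact Set.inter_subset_left.trans hs
  rw [← Cardinal.mk_image_eq hf.injective, h1]
  refine hA V hV ?_
  obtain ⟨x, hx⟩ := hne
  exact ⟨f x, hx⟩

theorem kd_card {κ : Cardinal.{0}} {Y : Type} [TopologicalSpace Y] [Nonempty Y] {A : Set Y}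
    (hA : KDense κ A) : #A = κ := by
  have := hA univ isOpen_univ univ_nonempty
  rwa [Set.inter_univ] at this

theorem homeo_image {Y Z : Type} [TopologicalSpace Y] [TopologicalSpace Z] {f : Y → Z}
    (hf : IsEmbedding f) (A : Set Y) : Nonempty (A ≃ₜ f '' A) := by
  have h1 : IsEmbedding (fun a : A => f a) := hf.comp IsEmbedding.subtypeVal
  have h2 : range (fun a : A => f a) = f '' A := by
    ext z; simp
  exact ⟨h1.toHomeomorph.trans (Homeomorph.setCongr h2)⟩

theorem BAw_of_BA {κ : Cardinal.{0}} {Y : Type} [TopologicalSpace Y] (h : BA κ Y) :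
    BAw κ Y := by
  intro A B hA hB
  obtain ⟨e, he⟩ := h A B hA hB
  obtain ⟨e'⟩ := homeo_image e.isEmbedding A
  exact ⟨e'.trans (Homeomorph.setCongr he)⟩

end Pool.Agent.R337.BW.H506
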