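import Pool.Agent.R337.BW.Stm
import Pool.Agent.R337.BW.H506

/-! Project BW: piece FIN. -/

set_option autoImplicit false

namespace Pool.Agent.R337.BW.FINx

open Set Topology Filter Cardinal Pool.Agent.R337.BW Pool.Agent.R337.BW.H506

/-- a homeomorphism of the target which preserves the range lifts to the source -/
theorem lift_homeo {Y Z : Type} [TopologicalSpace Y] [TopologicalSpace Z] {c : Y → Z}
    (hc : IsEmbedding c) (h : Z ≃ₜ Z) (hh : h '' (range c) = range c) :
    ∃ H : Y ≃ₜ Y, ∀ y, c (H y) = h (c y) := by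
  have e1 : Y ≃ₜ range c := hc.toHomeomorph
  have e2 : range c ≃ₜ h '' (range c) := h.image (range c)
  have e3 : (h '' (range c) : Set Z) ≃ₜ range c := Homeomorph.setCongr hh
  refine ⟨hc.toHomeomorph.trans ((h.image (range c)).trans
    ((Homeomorph.setCongr hh).trans hc.toHomeomorph.symm)), ?_⟩
  intro y
  have h1 : ∀ z : range c, c (hc.toHomeomorph.symm z) = z := by
    intro z
    have := congrArg Subtype.val (hc.toHomeomorph.apply_symm_apply z)
    exact this
  simp only [Homeomorph.trans_apply]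
  rw [h1]
  rfl

end Pool.Agent.R337.BW.FINx

namespace Pool.Agent.R337.BW

open Set Topology Filter Cardinal Pool.Agent.R337.BW.H506 Pool.Agent.R337.BW.FINx

theorem thm_FIN (hCORE : S_CORE) (hCOD : S_COD) (hTR : S_TR) (hNB : S_NB) (hALE : S_ALE)
    (hDQ : S_DQ) : S_FIN := by
  intro κ hκ
  rcases hκ.lt_or_eq with hlt | rfl
  · have hc0 : κ < 𝔠 := hlt.trans_le hALE.2
    constructor
    · refine ⟨fun h A B hA hB => ?_, BAw_of_BA⟩
      obtain ⟨Q, hQ1, hQ2, hQ3⟩ := hDQ A (by rw [kd_card hA]; exact hc0)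
      obtain ⟨Q', hQ1', hQ2', hQ3'⟩ := hDQ B (by rw [kd_card hB]; exact hc0)
      obtain ⟨e, he, -⟩ := hCORE κ A B Q Q' hlt h hA hB hQ1 hQ2 hQ1' hQ2' hQ3 hQ3'
      exact ⟨e, he⟩
    · refine ⟨fun h A B hA hB => ?_, BAw_of_BA⟩
      have hX : BAw κ X := hTR κ hc0 h
      obtain ⟨c, hc, hr⟩ := hCOD
      have hd : DenseRange c := by
        show Dense (range c)
        rw [hr]; exact T_dense
      have hcomp : (range c)ᶜ = Q0 := by rw [hr]; exact compl_T
      have hdis : ∀ A : Set N, Disjoint (c '' A) Q0 := by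
        intro A
        rw [← hcomp]
        exact Set.disjoint_compl_right_iff_subset.mpr (Set.image_subset_range _ _)
      obtain ⟨e, he1, he2⟩ := hCORE κ (c '' A) (c '' B) Q0 Q0 hlt hX
        (kd_image hc.continuous hc.injective hd hA) (kd_image hc.continuous hc.injective hd hB)
        Q0_countable Q0_dense Q0_countable Q0_dense (hdis A) (hdis B)
      have he3 : e '' (range c) = range c := by
        have h1 : range c = Q0ᶜ := by rw [← hcomp, compl_compl]
        rw [h1, Set.image_compl_eq e.bijective, he2]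
      obtain ⟨H, hH⟩ := lift_homeo hc e he3
      refine ⟨H, ?_⟩
      apply Set.image_injective.mpr hc.injective
      rw [← he1, Set.image_image, Set.image_image]
      exact Set.image_congr fun x _ => hH x
  · exact ⟨⟨fun h => (hNB.1 h).elim, BAw_of_BA⟩, ⟨fun h => (hNB.2 h).elim, BAw_of_BA⟩⟩

end Pool.Agent.R337.BW
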