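import Pool.Agent.R337.BW.Stm

set_option autoImplicit false

namespace Pool.Agent.R337.BW

open Set Topology Filter Cardinal

namespace GR

theorem closed_cyl (s : List Bool) : IsClosed (cyl s) := by
  have h : cyl s = ⋂ i : Fin s.length, {x : X | x i = s[i]} := by
    ext x
    simp only [cyl, Set.mem_ofPred_eq, mem_iInter]
    constructor
    · intro h i
      exact h i.1 i.2
    · intro h i hi
      exact h ⟨i, hi⟩
  rw [h]
  exact isClosed_iInter fun i => isClosed_eq (continuous_apply _) continuous_const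

theorem lim_unique {A B : Set X} {s t : List Bool} (f : ↥(A ∩ cyl s) ≃ₜ ↥(B ∩ cyl t))
    (a : ↥(A ∩ cyl s)) (y : X)
    (h : ((a : X), y) ∈ closure (range fun a : ↥(A ∩ cyl s) => ((a : X), ((f a : ↥(B ∩ cyl t)) : X)))) :
    y = (f a : X) := by
  obtain ⟨u, hu, hlim⟩ := mem_closure_iff_seq_limit.1 h
  choose b hb using hu
  have hfst : Tendsto (fun k => (b k : X)) atTop (𝓝 (a : X)) := by
    have h1 := (continuous_fst.tendsto _).comp hlim
    refine h1.congr fun k => ?_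
    simp only [Function.comp_apply]
    rw [← hb k]
  have hsnd : Tendsto (fun k => ((f (b k) : ↥(B ∩ cyl t)) : X)) atTop (𝓝 y) := by
    have h1 := (continuous_snd.tendsto _).comp hlim
    refine h1.congr fun k => ?_
    simp only [Function.comp_apply]
    rw [← hb k]
  have hb' : Tendsto b atTop (𝓝 a) := tendsto_subtype_rng.2 hfst
  have h2 : Tendsto (fun k => ((f (b k) : ↥(B ∩ cyl t)) : X)) atTop (𝓝 (f a : X)) :=
    ((continuous_subtype_val.comp f.continuous).tendsto a).comp hb'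
  exact tendsto_nhds_unique hsnd h2

theorem lim_unique' {A B : Set X} {s t : List Bool} (f : ↥(A ∩ cyl s) ≃ₜ ↥(B ∩ cyl t))
    (b : ↥(B ∩ cyl t)) (x : X)
    (h : (x, (b : X)) ∈ closure (range fun a : ↥(A ∩ cyl s) => ((a : X), ((f a : ↥(B ∩ cyl t)) : X)))) :
    x = (f.symm b : X) := by
  obtain ⟨u, hu, hlim⟩ := mem_closure_iff_seq_limit.1 h
  choose c hc using hu
  have hfst : Tendsto (fun k => (c k : X)) atTop (𝓝 x) := by
    have h1 := (continuous_fst.tendsto _).comp hlim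
    refine h1.congr fun k => ?_
    simp only [Function.comp_apply]
    rw [← hc k]
  have hsnd : Tendsto (fun k => ((f (c k) : ↥(B ∩ cyl t)) : X)) atTop (𝓝 (b : X)) := by
    have h1 := (continuous_snd.tendsto _).comp hlim
    refine h1.congr fun k => ?_
    simp only [Function.comp_apply]
    rw [← hc k]
  have hb' : Tendsto (fun k => f (c k)) atTop (𝓝 b) := tendsto_subtype_rng.2 hsnd
  have h2 : Tendsto (fun k => ((f.symm (f (c k)) : ↥(A ∩ cyl s)) : X)) atTop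
      (𝓝 (f.symm b : X)) :=
    ((continuous_subtype_val.comp f.symm.continuous).tendsto b).comp hb'
  simp only [Homeomorph.symm_apply_apply] at h2
  exact tendsto_nhds_unique hfst h2

theorem count_closed (Q : Set X) (hQ : Q.Countable) :
    ∃ K : ℕ → Set X, (∀ n, IsClosed (K n)) ∧ Q = ⋃ n, K n := by
  rcases Q.eq_empty_or_nonempty with rfl | hne
  · exact ⟨fun _ => ∅, fun _ => isClosed_empty, by simp⟩
  · obtain ⟨q, hq⟩ := hQ.exists_eq_range hne
    refine ⟨fun n => {q n}, fun n => isClosed_singleton, ?_⟩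
    rw [hq]
    ext x
    simp [eq_comm]

theorem closed_bad1 (Γ : Set (X × X)) (hΓ : IsClosed Γ) (n : ℕ) :
    IsClosed {p : X × X | p ∈ Γ ∧ ∃ q ∈ Γ, p.1 = q.1 ∧ p.2 n ≠ q.2 n} := by
  have h : {p : X × X | p ∈ Γ ∧ ∃ q ∈ Γ, p.1 = q.1 ∧ p.2 n ≠ q.2 n} =
      Prod.fst '' {w : (X × X) × (X × X) | w.1 ∈ Γ ∧ w.2 ∈ Γ ∧ w.1.1 = w.2.1 ∧
        w.1.2 n ≠ w.2.2 n} := by
    ext p
    constructor
    · rintro ⟨h1, q, h2, h3, h4⟩
      exact ⟨(p, q), ⟨h1, h2, h3, h4⟩, rfl⟩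
    · rintro ⟨⟨p', q⟩, ⟨h1, h2, h3, h4⟩, rfl⟩
      exact ⟨h1, q, h2, h3, h4⟩
  rw [h]
  refine (IsCompact.image ?_ continuous_fst).isClosed
  apply IsClosed.isCompact
  have h1 : IsClosed {w : (X × X) × (X × X) | w.1 ∈ Γ} := hΓ.preimage continuous_fst
  have h2 : IsClosed {w : (X × X) × (X × X) | w.2 ∈ Γ} := hΓ.preimage continuous_snd
  have h3 : IsClosed {w : (X × X) × (X × X) | w.1.1 = w.2.1} :=
    isClosed_eq (by fun_prop) (by fun_prop)
  have h4 : IsClosed {w : (X × X) × (X × X) | w.1.2 n ≠ w.2.2 n} := by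
    have hc : Continuous fun w : (X × X) × (X × X) => (w.1.2 n, w.2.2 n) :=
      ((continuous_apply n).comp (by fun_prop)).prodMk ((continuous_apply n).comp (by fun_prop))
    exact (isClosed_discrete {b : Bool × Bool | b.1 ≠ b.2}).preimage hc
  exact h1.inter (h2.inter (h3.inter h4))

theorem closed_bad2 (Γ : Set (X × X)) (hΓ : IsClosed Γ) (n : ℕ) :
    IsClosed {p : X × X | p ∈ Γ ∧ ∃ q ∈ Γ, p.2 = q.2 ∧ p.1 n ≠ q.1 n} := by
  have h : {p : X × X | p ∈ Γ ∧ ∃ q ∈ Γ, p.2 = q.2 ∧ p.1 n ≠ q.1 n} =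
      Prod.fst '' {w : (X × X) × (X × X) | w.1 ∈ Γ ∧ w.2 ∈ Γ ∧ w.1.2 = w.2.2 ∧
        w.1.1 n ≠ w.2.1 n} := by
    ext p
    constructor
    · rintro ⟨h1, q, h2, h3, h4⟩
      exact ⟨(p, q), ⟨h1, h2, h3, h4⟩, rfl⟩
    · rintro ⟨⟨p', q⟩, ⟨h1, h2, h3, h4⟩, rfl⟩
      exact ⟨h1, q, h2, h3, h4⟩
  rw [h]
  refine (IsCompact.image ?_ continuous_fst).isClosed
  apply IsClosed.isCompact
  have h1 : IsClosed {w : (X × X) × (X × X) | w.1 ∈ Γ} := hΓ.preimage continuous_fst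
  have h2 : IsClosed {w : (X × X) × (X × X) | w.2 ∈ Γ} := hΓ.preimage continuous_snd
  have h3 : IsClosed {w : (X × X) × (X × X) | w.1.2 = w.2.2} :=
    isClosed_eq (by fun_prop) (by fun_prop)
  have h4 : IsClosed {w : (X × X) × (X × X) | w.1.1 n ≠ w.2.1 n} := by
    have hc : Continuous fun w : (X × X) × (X × X) => (w.1.1 n, w.2.1 n) :=
      ((continuous_apply n).comp (by fun_prop)).prodMk ((continuous_apply n).comp (by fun_prop))
    exact (isClosed_discrete {b : Bool × Bool | b.1 ≠ b.2}).preimage hc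
  exact h1.inter (h2.inter (h3.inter h4))

end GR

open GR in
theorem thm_GR (hcov : S_COV) : S_GR := by
  intro A B Q Q' s t hA hQ hQ' hAQ hBQ' ⟨f⟩
  set Gr : Set (X × X) := range fun a : ↥(A ∩ cyl s) => ((a : X), ((f a : ↥(B ∩ cyl t)) : X))
    with hGr
  set Γ : Set (X × X) := closure Gr with hΓ
  have hΓc : IsClosed Γ := isClosed_closure
  have hGΓ : Gr ⊆ Γ := subset_closure
  have hΓsub : Γ ⊆ cyl s ×ˢ cyl t := by
    apply closure_minimal _ ((closed_cyl s).prod (closed_cyl t))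
    rintro p ⟨a, rfl⟩
    exact ⟨a.2.2, (f a).2.2⟩
  have hu1 : ∀ p (hp : p ∈ Γ) (h : p.1 ∈ A), p.2 = (f ⟨p.1, h, (hΓsub hp).1⟩ : X) := by
    intro p hp h
    exact lim_unique f ⟨p.1, h, (hΓsub hp).1⟩ p.2 hp
  have hu2 : ∀ p (hp : p ∈ Γ) (h : p.2 ∈ B), p.1 = (f.symm ⟨p.2, h, (hΓsub hp).2⟩ : X) := by
    intro p hp h
    exact lim_unique' f ⟨p.2, h, (hΓsub hp).2⟩ p.1 hp
  obtain ⟨K, hKc, hK⟩ := count_closed Q hQ
  obtain ⟨K', hKc', hK'⟩ := count_closed Q' hQ'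
  obtain ⟨C, hmono, hCc, hCF, hcover⟩ := hcov (X × X)
    (fun n => ({p : X × X | p ∈ Γ ∧ ∃ q ∈ Γ, p.1 = q.1 ∧ p.2 n ≠ q.2 n} ∪
      {p : X × X | p ∈ Γ ∧ ∃ q ∈ Γ, p.2 = q.2 ∧ p.1 n ≠ q.1 n}) ∪
      (Prod.fst ⁻¹' K n ∪ Prod.snd ⁻¹' K' n))
    (fun n => ((closed_bad1 Γ hΓc n).union (closed_bad2 Γ hΓc n)).union
      (((hKc n).preimage continuous_fst).union ((hKc' n).preimage continuous_snd)))
    Gr (lt_of_le_of_lt (mk_range_le.trans (mk_le_mk_of_subset inter_subset_left)) hA) (by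
      intro n
      rw [Set.disjoint_left]
      rintro p ⟨a, rfl⟩ hbad
      have hmem : ((a : X), ((f a : ↥(B ∩ cyl t)) : X)) ∈ Γ := hGΓ ⟨a, rfl⟩
      rcases hbad with (hb | hb) | (hb | hb)
      · obtain ⟨-, q, hq, h1, h2⟩ := hb
        simp only at h1 h2
        have hqA : q.1 ∈ A := by rw [← h1]; exact a.2.1
        have h3 := hu1 q hq hqA
        apply h2
        rw [h3]
        have h4 : (⟨q.1, hqA, (hΓsub hq).1⟩ : ↥(A ∩ cyl s)) = a := Subtype.ext h1.symm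
        rw [h4]
      · obtain ⟨-, q, hq, h1, h2⟩ := hb
        simp only at h1 h2
        have hqB : q.2 ∈ B := by rw [← h1]; exact (f a).2.1
        have h3 := hu2 q hq hqB
        apply h2
        rw [h3]
        have h4 : (⟨q.2, hqB, (hΓsub hq).2⟩ : ↥(B ∩ cyl t)) = f a := Subtype.ext h1.symm
        rw [h4, Homeomorph.symm_apply_apply]
      · have h1 : (a : X) ∈ Q := by
          rw [hK]
          exact mem_iUnion.2 ⟨n, hb⟩
        exact (Set.disjoint_left.1 hAQ) a.2.1 h1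
      · have h1 : ((f a : ↥(B ∩ cyl t)) : X) ∈ Q' := by
          rw [hK']
          exact mem_iUnion.2 ⟨n, hb⟩
        exact (Set.disjoint_left.1 hBQ') (f a).2.1 h1)
  refine ⟨fun m => C m ∩ Γ, fun i j hij => inter_subset_inter_left _ (hmono hij), ?_, ?_, ?_⟩
  · intro m
    refine ⟨(hCc m).inter hΓc, fun p hp => hΓsub hp.2, ?_, ?_⟩
    · intro p hp q hq
      constructor
      · intro h1
        by_contra h2
        obtain ⟨n, hn⟩ := Function.ne_iff.1 h2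
        exact (Set.disjoint_left.1 (hCF m n)) hp.1 (Or.inl (Or.inl ⟨hp.2, q, hq.2, h1, hn⟩))
      · intro h1
        by_contra h2
        obtain ⟨n, hn⟩ := Function.ne_iff.1 h2
        exact (Set.disjoint_left.1 (hCF m n)) hp.1 (Or.inl (Or.inr ⟨hp.2, q, hq.2, h1, hn⟩))
    · intro p hp
      refine ⟨⟨fun h1 => ?_, fun h1 => ?_⟩, fun h1 => ?_, fun h1 => ?_⟩
      · rw [hu1 p hp.2 h1]
        exact (f _).2.1
      · rw [hu2 p hp.2 h1]
        exact (f.symm _).2.1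
      · rw [hK] at h1
        obtain ⟨n, hn⟩ := mem_iUnion.1 h1
        exact (Set.disjoint_left.1 (hCF m n)) hp.1 (Or.inr (Or.inl hn))
      · rw [hK'] at h1
        obtain ⟨n, hn⟩ := mem_iUnion.1 h1
        exact (Set.disjoint_left.1 (hCF m n)) hp.1 (Or.inr (Or.inr hn))
  · intro a ha
    have h1 : ((a : X), ((f ⟨a, ha⟩ : ↥(B ∩ cyl t)) : X)) ∈ Gr := ⟨⟨a, ha⟩, rfl⟩
    obtain ⟨m, hm⟩ := mem_iUnion.1 (hcover h1)
    exact ⟨m, _, ⟨hm, hGΓ h1⟩, rfl⟩
  · intro b hb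
    have h1 : (((f.symm ⟨b, hb⟩ : ↥(A ∩ cyl s)) : X), b) ∈ Gr := by
      refine ⟨f.symm ⟨b, hb⟩, ?_⟩
      simp only [Homeomorph.apply_symm_apply]
    obtain ⟨m, hm⟩ := mem_iUnion.1 (hcover h1)
    exact ⟨m, _, ⟨hm, hGΓ h1⟩, rfl⟩

end Pool.Agent.R337.BW
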