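import Pool.Agent.R337.BW.Stm

/-!
Project BW (MP_ddd032_lc): the piece LAM (uses COV, ALE).
-/

set_option autoImplicit false

namespace Pool.Agent.R337.BW

open Set Topology Filter Cardinal

namespace LAM

theorem bounded_of_lt {F : Set (ℕ → ℕ)} (h : #F < bNum) : ∃ g, ∀ f ∈ F, LE f g := by
  by_contra hcon
  push Not at hcon
  refine absurd (csInf_le' ?_) (not_le.2 h)
  exact ⟨F, rfl, hcon⟩

/-- all finite modifications of the functions `f i`, `i ∈ I` -/
theorem card_mod {ι : Type} (f : ι → ℕ → ℕ) (I : Set ι) :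
    #{x : N | ∃ i ∈ I, ∀ᶠ n in atTop, x n = f i n} ≤ #I * ℵ₀ := by
  classical
  let φ : I × List ℕ → N := fun p n => if h : n < p.2.length then p.2[n] else f p.1 n
  have hsub : {x : N | ∃ i ∈ I, ∀ᶠ n in atTop, x n = f i n} ⊆ range φ := by
    rintro x ⟨i, hi, hx⟩
    obtain ⟨m, hm⟩ := eventually_atTop.1 hx
    refine ⟨(⟨i, hi⟩, List.ofFn fun k : Fin m => x k), ?_⟩
    funext n
    simp only [φ, List.length_ofFn]
    split_ifs with h
    · simp
    · exact (hm n (not_lt.1 h)).symm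
  calc #{x : N | ∃ i ∈ I, ∀ᶠ n in atTop, x n = f i n} ≤ #(range φ) := mk_le_mk_of_subset hsub
    _ ≤ #(I × List ℕ) := mk_range_le
    _ = #I * #(List ℕ) := by simp
    _ ≤ #I * ℵ₀ := by
        gcongr
        exact mk_le_aleph0

theorem aleph0_lt (hA : S_ALE) : ℵ₀ < bNum := lt_of_lt_of_le aleph0_lt_aleph_one hA.1

theorem kdense (hA : S_ALE) {ι : Type} [LinearOrder ι] (f : ι → ℕ → ℕ) (hf : Seq ι f) :
    KDense bNum (ES f) := by
  classical
  intro U hU hne
  apply le_antisymm
  · have h1 : ES f ∩ U ⊆ {x : N | ∃ i ∈ (univ : Set ι), ∀ᶠ n in atTop, x n = f i n} := by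
      rintro x ⟨⟨i, hi⟩, -⟩
      exact ⟨i, mem_univ i, hi⟩
    calc #↥(ES f ∩ U) ≤ _ := mk_le_mk_of_subset h1
      _ ≤ #(univ : Set ι) * ℵ₀ := card_mod f univ
      _ = bNum * ℵ₀ := by rw [mk_univ, hf.card]
      _ = bNum := mul_eq_left (aleph0_lt hA).le (aleph0_lt hA).le aleph0_ne_zero
  · obtain ⟨x, hx⟩ := hne
    obtain ⟨I, u, hu, hsub⟩ := isOpen_pi_iff.1 hU x hx
    let m := I.sup id + 1
    let g : ι → ↥(ES f ∩ U) := fun i => ⟨fun n => if n < m then x n else f i n, by
      constructor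
      · refine ⟨i, ?_⟩
        filter_upwards [eventually_ge_atTop m] with n hn
        simp [not_lt.2 hn]
      · apply hsub
        intro n hn
        have : n < m := Nat.lt_succ_of_le (Finset.le_sup (f := id) hn)
        simp only [this, if_true]
        exact (hu n hn).2⟩
    have hg : Function.Injective g := by
      have key : ∀ i j : ι, i < j → g i ≠ g j := by
        intro i j hij heq
        have h1 := hf.incr i j hij
        obtain ⟨n, hn1, hn2⟩ := (h1.and (eventually_ge_atTop m)).exists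
        have h2 := congrFun (congrArg Subtype.val heq) n
        simp only [g, not_lt.2 hn2, if_false] at h2
        omega
      intro i j heq
      rcases lt_trichotomy i j with h | h | h
      · exact absurd heq (key i j h)
      · exact h
      · exact absurd heq.symm (key j i h)
    calc bNum = #ι := hf.card.symm
      _ ≤ #↥(ES f ∩ U) := mk_le_of_injective hg

theorem exists_above (hA : S_ALE) {ι : Type} [LinearOrder ι] (f : ι → ℕ → ℕ) (hf : Seq ι f)
    (J : Set ι) (hJ : J.Countable) : ∃ γ, ∀ i ∈ J, i < γ := by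
  by_contra hcon
  push Not at hcon
  have h1 : #(f '' J) < bNum := by
    have : (f '' J).Countable := hJ.image f
    exact lt_of_le_of_lt (le_aleph0_iff_set_countable.2 this) (aleph0_lt hA)
  obtain ⟨g, hg⟩ := bounded_of_lt h1
  obtain ⟨i, hi⟩ := hf.unb g
  apply hi
  obtain ⟨j, hj, hij⟩ := hcon i
  have h2 : LE (f j) g := hg _ ⟨j, hj, rfl⟩
  rcases hij.eq_or_lt with h | h
  · rw [h]; exact h2
  · filter_upwards [h2, hf.incr i j h] with n hn1 hn2
    omega

end LAM

open LAM in
/-- LAM -/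
theorem thm_LAM (hC : S_COV) (hA : S_ALE) : S_LAM := by
  classical
  intro ι _ f hf
  refine ⟨kdense hA f hf, ?_⟩
  intro S hS hSc
  have hidx : ∀ s : S, ∃ i, ∀ᶠ n in atTop, (s : N) n = f i n := fun s => hS s.2
  choose idx hidx using hidx
  have : Countable S := hSc.to_subtype
  obtain ⟨γ, hγ⟩ := exists_above hA f hf (range idx) (countable_range idx)
  -- `K m`
  let K : ℕ → Set N := fun m => {x | ∀ n ≥ m, f γ n ≤ x n}
  have hKc : ∀ m, IsClosed (K m) := by
    intro m
    have : K m = ⋂ n : ℕ, ⋂ _ : n ≥ m, {x : N | f γ n ≤ x n} := by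
      ext x; simp [K]
    rw [this]
    refine isClosed_iInter fun n => isClosed_iInter fun _ => ?_
    exact isClosed_le continuous_const (continuous_apply n)
  have hKS : ∀ m, ∀ s ∈ S, s ∉ K m := by
    intro m s hs hsK
    have h1 := hidx ⟨s, hs⟩
    have h2 := hf.incr _ _ (hγ _ ⟨⟨s, hs⟩, rfl⟩)
    obtain ⟨n, ⟨hn1, hn2⟩, hn3⟩ := ((h1.and h2).and (eventually_ge_atTop m)).exists
    have h3 := hsK n hn3
    simp only at hn1
    omega
  -- the small set `L`
  let L : Set N := {x : N | ∃ i ∈ Iio γ, ∀ᶠ n in atTop, x n = f i n} \ S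
  have hL : #L < bNum := by
    calc #L ≤ _ := mk_le_mk_of_subset sdiff_subset
      _ ≤ #(Iio γ) * ℵ₀ := card_mod f (Iio γ)
      _ < bNum := mul_lt_of_lt (aleph0_lt hA).le (hf.small γ) (aleph0_lt hA)
  obtain ⟨F, hFc, hFS⟩ : ∃ F : ℕ → Set N, (∀ n, IsClosed (F n)) ∧ ⋃ n, F n = S := by
    rcases S.eq_empty_or_nonempty with h | h
    · exact ⟨fun _ => ∅, fun _ => isClosed_empty, by simp [h]⟩
    · obtain ⟨e, he⟩ := hSc.exists_eq_range h
      exact ⟨fun n => {e n}, fun n => isClosed_singleton, by rw [he]; ext x; simp [eq_comm]⟩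
  obtain ⟨C, -, hCc, hCF, hCL⟩ := hC N F hFc L hL (by
    intro n
    refine disjoint_left.2 fun x hxL hxF => hxL.2 ?_
    rw [← hFS]; exact mem_iUnion.2 ⟨n, hxF⟩)
  refine ⟨fun n => (C n ∪ K n)ᶜ, fun n => ((hCc n).union (hKc n)).isOpen_compl, ?_⟩
  apply Subset.antisymm
  · rintro x ⟨⟨i, hi⟩, hx⟩
    by_contra hxS
    rcases lt_or_ge i γ with h | h
    · have : x ∈ L := ⟨⟨i, h, hi⟩, hxS⟩
      obtain ⟨m, hm⟩ := mem_iUnion.1 (hCL this)
      exact (mem_iInter.1 hx m) (Or.inl hm)
    · have h1 : ∀ᶠ n in atTop, f γ n ≤ x n := by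
        rcases h.eq_or_lt with h' | h'
        · filter_upwards [hi] with n hn
          rw [hn, h']
        · filter_upwards [hi, hf.incr _ _ h'] with n hn1 hn2
          omega
      obtain ⟨m, hm⟩ := eventually_atTop.1 h1
      exact (mem_iInter.1 hx m) (Or.inr hm)
  · intro x hx
    refine ⟨hS hx, mem_iInter.2 fun n => ?_⟩
    rintro (h | h)
    · rw [← hFS] at hx
      obtain ⟨k, hk⟩ := mem_iUnion.1 hx
      exact disjoint_left.1 (hCF n k) h hk
    · exact hKS n x hx h

end Pool.Agent.R337.BW
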