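import Pool.Agent.R337.BW.Stm
import Pool.Agent.R337.BW.H506

/-! Project BW: piece NB. -/

set_option autoImplicit false

namespace Pool.Agent.R337.BW.NBx

open Set Topology Filter Cardinal Pool.Agent.R337.BW Pool.Agent.R337.BW.H506

/-- transfer of relative `G_δ`-ness of countable sets through a homeomorphism -/
theorem gdelta_transfer {Y : Type} [TopologicalSpace Y] (E : Set N)
    (hE : ∀ S ⊆ E, S.Countable → ∃ O : ℕ → Set N, (∀ n, IsOpen (O n)) ∧ E ∩ ⋂ n, O n = S)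
    (E2 : Set Y) (e : E ≃ₜ E2) (Q : Set Y) (hQ : Q.Countable) (hQ2 : Q ⊆ E2) :
    ∃ W : ℕ → Set Y, (∀ n, IsOpen (W n)) ∧ E2 ∩ ⋂ n, W n = Q := by
  have hinj : Function.Injective (fun x : E => (e x : Y)) :=
    Subtype.val_injective.comp e.injective
  obtain ⟨O, hO1, hO2⟩ := hE (Subtype.val '' ((fun x : E => (e x : Y)) ⁻¹' Q))
    (by rintro _ ⟨x, _, rfl⟩; exact x.2)
    ((hQ.preimage_of_injOn hinj.injOn).image _)
  have hW : ∀ n, ∃ W : Set Y, IsOpen W ∧ Subtype.val ⁻¹' W = {y : E2 | (e.symm y : N) ∈ O n} := by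
    intro n
    have h1 : IsOpen {y : E2 | (e.symm y : N) ∈ O n} :=
      (hO1 n).preimage (continuous_subtype_val.comp e.symm.continuous)
    exact isOpen_induced_iff.mp h1
  choose W hW1 hW2 using hW
  refine ⟨W, hW1, ?_⟩
  have hmem : ∀ (n : ℕ) (y : Y) (hy : y ∈ E2), y ∈ W n ↔ (e.symm ⟨y, hy⟩ : N) ∈ O n := by
    intro n y hy
    have h1 : (⟨y, hy⟩ : E2) ∈ Subtype.val ⁻¹' (W n) ↔
        (⟨y, hy⟩ : E2) ∈ {y : E2 | (e.symm y : N) ∈ O n} := by rw [hW2]
    exact h1
  have hmem2 : ∀ (y : Y) (hy : y ∈ E2), (∀ n, y ∈ W n) ↔ y ∈ Q := by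
    intro y hy
    have h1 : (∀ n, y ∈ W n) ↔ (e.symm ⟨y, hy⟩ : N) ∈ E ∩ ⋂ n, O n := by
      constructor
      · intro h
        exact ⟨(e.symm ⟨y, hy⟩).2, Set.mem_iInter.mpr fun n => (hmem n y hy).mp (h n)⟩
      · intro h n
        exact (hmem n y hy).mpr (Set.mem_iInter.mp h.2 n)
    rw [h1, hO2]
    constructor
    · rintro ⟨x, hx, hxe⟩
      have h2 : x = e.symm ⟨y, hy⟩ := Subtype.ext hxe
      have h3 : (e x : Y) ∈ Q := hx
      rw [h2, e.apply_symm_apply] at h3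
      exact h3
    · intro h
      refine ⟨e.symm ⟨y, hy⟩, ?_, rfl⟩
      show (e (e.symm ⟨y, hy⟩) : Y) ∈ Q
      rw [e.apply_symm_apply]
      exact h
  ext y
  constructor
  · rintro ⟨hy, hy2⟩
    exact (hmem2 y hy).mp (Set.mem_iInter.mp hy2)
  · intro h
    exact ⟨hQ2 h, Set.mem_iInter.mpr ((hmem2 y (hQ2 h)).mpr h)⟩

/-- the key contradiction -/
theorem key {ι : Type} [LinearOrder ι] {f : ι → ℕ → ℕ} (hf : Seq ι f) {c : N → X}
    (hc : IsEmbedding c) (hr : range c = {x | ∃ᶠ n in atTop, x n = true})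
    (W : ℕ → Set X) (hW : ∀ n, IsOpen (W n)) (h1 : ∀ n, Q0 ⊆ W n)
    (h2 : ∀ x ∈ c '' ES f, ¬ ∀ n, x ∈ W n) : False := by
  have hK : ∀ n, IsCompact (c ⁻¹' (W n)ᶜ) := by
    intro n
    have h3 : IsCompact (W n)ᶜ := (hW n).isClosed_compl.isCompact
    refine (hc.isInducing.isCompact_preimage_iff ?_).mpr h3
    rw [hr]
    intro x hx
    by_contra h
    have h' : x ∈ {x : X | ∃ᶠ n in atTop, x n = true}ᶜ := h
    rw [compl_T] at h'
    exact hx (h1 n h')
  have hb : ∀ n m, ∃ b : ℕ, ∀ x ∈ c ⁻¹' (W n)ᶜ, x m ≤ b := by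
    intro n m
    have h3 : IsCompact ((fun x : N => x m) '' (c ⁻¹' (W n)ᶜ)) :=
      (hK n).image (continuous_apply m)
    obtain ⟨b, hb⟩ := h3.bddAbove
    exact ⟨b, fun x hx => hb ⟨x, hx, rfl⟩⟩
  choose g hg using hb
  obtain ⟨i, hi⟩ := hf.unb (fun m => (Finset.range (m + 1)).sup (fun n => g n m))
  apply hi
  have h3 : c (f i) ∈ c '' ES f := ⟨f i, ⟨i, Eventually.of_forall fun _ => rfl⟩, rfl⟩
  obtain ⟨n, hn⟩ := not_forall.mp (h2 _ h3)
  show ∀ᶠ m in atTop, f i m ≤ _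
  filter_upwards [eventually_ge_atTop n] with m hm
  refine (hg n m (f i) hn).trans ?_
  exact Finset.le_sup (f := fun n => g n m) (Finset.mem_range.mpr (by omega))

/-- adding a small set to a dense set -/
theorem kd_union {κ : Cardinal.{0}} (hκ : ℵ₀ ≤ κ) {Y : Type} [TopologicalSpace Y] {A B : Set Y}
    (hA : KDense κ A) (hB : #B ≤ κ) : KDense κ (A ∪ B) := by
  intro U hU hne
  apply le_antisymm
  · rw [Set.union_inter_distrib_right]
    refine (Cardinal.mk_union_le _ _).trans ?_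
    rw [hA U hU hne]
    refine (add_le_add le_rfl ((Cardinal.mk_le_mk_of_subset Set.inter_subset_left).trans hB)).trans ?_
    exact (Cardinal.add_eq_self hκ).le
  · rw [← hA U hU hne]
    exact Cardinal.mk_le_mk_of_subset
      (Set.inter_subset_inter_left _ Set.subset_union_left)

/-- the embedding of the Cantor space in the Baire space -/
def jj (x : X) : N := fun n => if x n then 1 else 0

theorem jj_cont : Continuous jj := by
  refine continuous_pi fun n => ?_
  exact (continuous_of_discreteTopology (f := fun b : Bool => if b then (1 : ℕ) else 0)).comp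
    (continuous_apply n)

theorem jj_inj : Function.Injective jj := by
  intro x y h
  funext n
  have := congrFun h n
  simp only [jj] at this
  cases hx : x n <;> cases hy : y n <;> simp_all

end Pool.Agent.R337.BW.NBx

namespace Pool.Agent.R337.BW

open Set Topology Filter Cardinal Pool.Agent.R337.BW.H506 Pool.Agent.R337.BW.NBx

theorem thm_NB (hSEQ : S_SEQ) (hLAM : S_LAM) (hCOD : S_COD) (hALE : S_ALE) : S_NB := by
  obtain ⟨ι, _, f, hf⟩ := hSEQ
  obtain ⟨hE, hG⟩ := hLAM ι f hf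
  obtain ⟨c, hc, hr⟩ := hCOD
  have hb : ℵ₀ ≤ bNum := (Cardinal.aleph0_le_aleph 1).trans hALE.1
  have hd : DenseRange c := by
    show Dense (range c)
    rw [hr]; exact T_dense
  have hcomp : (range c)ᶜ = Q0 := by rw [hr]; exact compl_T
  have hE1 : KDense bNum (c '' ES f) := kd_image hc.continuous hc.injective hd hE
  have hdis : ∀ x ∈ c '' ES f, x ∉ Q0 := by
    rintro _ ⟨y, _, rfl⟩ h
    rw [← hcomp] at h
    exact h ⟨y, rfl⟩
  constructor
  · intro hBA
    have hE2 : KDense bNum (c '' ES f ∪ Q0) :=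
      kd_union hb hE1 (Q0_countable.le_aleph0.trans hb)
    obtain ⟨e⟩ := hBA _ _ hE1 hE2
    obtain ⟨e1⟩ := homeo_image hc (ES f)
    obtain ⟨W, hW1, hW2⟩ := gdelta_transfer (ES f) hG _ (e1.trans e) Q0 Q0_countable
      Set.subset_union_right
    refine key hf hc hr W hW1 ?_ ?_
    · intro n x hx
      rw [← hW2] at hx
      exact Set.mem_iInter.mp hx.2 n
    · intro x hx h
      have : x ∈ (c '' ES f ∪ Q0) ∩ ⋂ n, W n := ⟨Or.inl hx, Set.mem_iInter.mpr h⟩
      rw [hW2] at this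
      exact hdis x hx this
  · intro hBA
    have hcard : #(jj '' (c '' ES f ∪ Q0) : Set N) ≤ bNum := by
      refine (Cardinal.mk_image_le).trans ((Cardinal.mk_union_le _ _).trans ?_)
      rw [kd_card hE1]
      exact (add_le_add le_rfl (Q0_countable.le_aleph0.trans hb)).trans
        (Cardinal.add_eq_self hb).le
    have hE2 : KDense bNum (ES f ∪ jj '' (c '' ES f ∪ Q0)) := kd_union hb hE hcard
    obtain ⟨e⟩ := hBA _ _ hE hE2
    obtain ⟨W, hW1, hW2⟩ := gdelta_transfer (ES f) hG _ e (jj '' Q0) (Q0_countable.image _)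
      (fun x hx => Or.inr (Set.image_mono Set.subset_union_right hx))
    refine key hf hc hr (fun n => jj ⁻¹' W n) (fun n => (hW1 n).preimage jj_cont) ?_ ?_
    · intro n x hx
      have h3 : jj x ∈ jj '' Q0 := ⟨x, hx, rfl⟩
      rw [← hW2] at h3
      exact Set.mem_iInter.mp h3.2 n
    · intro x hx h
      have h3 : jj x ∈ (ES f ∪ jj '' (c '' ES f ∪ Q0)) ∩ ⋂ n, W n :=
        ⟨Or.inr ⟨x, Or.inl hx, rfl⟩, Set.mem_iInter.mpr h⟩
      rw [hW2] at h3
      obtain ⟨y, hy, hyx⟩ := h3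
      rw [jj_inj hyx] at hy
      exact hdis x hx hy

end Pool.Agent.R337.BW
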