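import Mathlib

/-!
Project BW (MP_ddd032_lc): definitions and exact statements of the pieces. Proofs: NOTES.md.
-/

set_option autoImplicit false

namespace Pool.Agent.R337.BW

open Set Topology Filter Cardinal

/-- the Cantor space -/
abbrev X := ℕ → Bool

/-- the Baire space -/
abbrev N := ℕ → ℕ

/-- a `κ`-dense set: it meets every nonempty open set in exactly `κ` points -/
def KDense (κ : Cardinal.{0}) {Y : Type} [TopologicalSpace Y] (A : Set Y) : Prop :=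
  ∀ U : Set Y, IsOpen U → U.Nonempty → #↥(A ∩ U) = κ

/-- Baumgartner's axiom for the space `Y` -/
def BA (κ : Cardinal.{0}) (Y : Type) [TopologicalSpace Y] : Prop :=
  ∀ A B : Set Y, KDense κ A → KDense κ B → ∃ h : Y ≃ₜ Y, h '' A = B

/-- the weak Baumgartner axiom for the space `Y` -/
def BAw (κ : Cardinal.{0}) (Y : Type) [TopologicalSpace Y] : Prop :=
  ∀ A B : Set Y, KDense κ A → KDense κ B → Nonempty (A ≃ₜ B)

/-- domination at all but finitely many places -/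
def LE (f g : ℕ → ℕ) : Prop := ∀ᶠ n in atTop, f n ≤ g n

/-- the bounding number -/
noncomputable def bNum : Cardinal.{0} :=
  sInf {c | ∃ F : Set (ℕ → ℕ), #F = c ∧ ∀ g, ∃ f ∈ F, ¬ LE f g}

/-- the clopen set of all sequences with the initial part `s` -/
def cyl (s : List Bool) : Set X := {x | ∀ i, ∀ h : i < s.length, x i = s[i]}

/-- closed graph of a bijection between two nonempty nowhere dense sets in `cyl s` and `cyl t` -/
structure Nice (s t : List Bool) (T : Set (X × X)) : Prop where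
  closed : IsClosed T
  sub : T ⊆ cyl s ×ˢ cyl t
  inj : ∀ p ∈ T, ∀ q ∈ T, p.1 = q.1 ↔ p.2 = q.2
  nd1 : interior (Prod.fst '' T) = ∅
  nd2 : interior (Prod.snd '' T) = ∅
  ne : T.Nonempty

/-- STEP -/
def S_STEP : Prop := ∀ (s t : List Bool) (T : Set (X × X)), Nice s t T → ∀ n : ℕ,
  ∃ p p' : ℕ → List Bool, (∀ j, n ≤ (p j).length ∧ n ≤ (p' j).length) ∧
    (Pairwise fun i j => Disjoint (cyl (p i)) (cyl (p j))) ∧
    (Pairwise fun i j => Disjoint (cyl (p' i)) (cyl (p' j))) ∧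
    (⋃ j, cyl (p j)) = cyl s \ Prod.fst '' T ∧ (⋃ j, cyl (p' j)) = cyl t \ Prod.snd '' T ∧
    IsClosed (T ∪ ⋃ j, cyl (p j) ×ˢ cyl (p' j))

/-- LIM (uses STEP) -/
def S_LIM : Prop := ∀ (T : List Bool → List Bool → Set (X × X)), (∀ s t, Nice s t (T s t)) →
  ∀ (χ χ' : X → ℕ), (∀ s t, ∀ p ∈ T s t, χ p.1 = χ' p.2) →
  (∀ x, χ x ≠ 0 → ∀ s t : ℕ → List Bool, (∀ k, x ∈ cyl (s k)) →
    (∀ k, k ≤ (s k).length ∧ k ≤ (t k).length) → ∃ k, x ∈ Prod.fst '' T (s k) (t k)) →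
  (∀ y, χ' y ≠ 0 → ∀ s t : ℕ → List Bool, (∀ k, y ∈ cyl (t k)) →
    (∀ k, k ≤ (s k).length ∧ k ≤ (t k).length) → ∃ k, y ∈ Prod.snd '' T (s k) (t k)) →
  ∃ h : X ≃ₜ X, ∀ x, χ x = χ' (h x)

/-- COV -/
def S_COV : Prop := ∀ (Z : Type) [TopologicalSpace Z] [TopologicalSpace.MetrizableSpace Z] (F : ℕ → Set Z),
  (∀ n, IsClosed (F n)) → ∀ S : Set Z, #S < bNum → (∀ n, Disjoint S (F n)) →
  ∃ C : ℕ → Set Z, Monotone C ∧ (∀ m, IsClosed (C m)) ∧ (∀ m n, Disjoint (C m) (F n)) ∧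
    S ⊆ ⋃ m, C m

/-- DOM -/
def S_DOM : Prop := ∀ (I J : Type) [Countable I], #J < bNum → ∀ Φ : J → I → ℕ,
  ∃ g : I → ℕ, ∀ j, {i | g i < Φ j i}.Finite

/-- GR (uses COV) -/
def S_GR : Prop := ∀ (A B Q Q' : Set X) (s t : List Bool), #A < bNum → Q.Countable →
  Q'.Countable → Disjoint A Q → Disjoint B Q' → Nonempty (↥(A ∩ cyl s) ≃ₜ ↥(B ∩ cyl t)) →
  ∃ C : ℕ → Set (X × X), Monotone C ∧
    (∀ m, IsClosed (C m) ∧ C m ⊆ cyl s ×ˢ cyl t ∧
      (∀ p ∈ C m, ∀ q ∈ C m, p.1 = q.1 ↔ p.2 = q.2) ∧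
      ∀ p ∈ C m, (p.1 ∈ A ↔ p.2 ∈ B) ∧ p.1 ∉ Q ∧ p.2 ∉ Q') ∧
    (∀ a ∈ A ∩ cyl s, ∃ m, a ∈ Prod.fst '' C m) ∧ (∀ b ∈ B ∩ cyl t, ∃ m, b ∈ Prod.snd '' C m)

/-- CYL: pieces of `κ`-dense sets in cylinders are homeomorphic -/
def S_CYL : Prop := ∀ (κ : Cardinal.{0}), BAw κ X → ∀ A B : Set X, KDense κ A → KDense κ B →
  ∀ s t : List Bool, Nonempty (↥(A ∩ cyl s) ≃ₜ ↥(B ∩ cyl t))

open Classical in
/-- the colour of a point: 1 in `A`, 2 in `Q`, 0 elsewhere -/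
noncomputable def col (A Q : Set X) (x : X) : ℕ := if x ∈ A then 1 else if x ∈ Q then 2 else 0

/-- ORA (uses DOM, GR, CYL) -/
def S_ORA : Prop := ∀ (κ : Cardinal.{0}) (A B Q Q' : Set X), κ < bNum → BAw κ X →
  KDense κ A → KDense κ B → Q.Countable → Dense Q → Q'.Countable → Dense Q' →
  Disjoint A Q → Disjoint B Q' →
  ∃ T : List Bool → List Bool → Set (X × X), (∀ s t, Nice s t (T s t)) ∧
    (∀ s t, ∀ p ∈ T s t, col A Q p.1 = col B Q' p.2) ∧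
    (∀ x, col A Q x ≠ 0 → ∀ s t : ℕ → List Bool, (∀ k, x ∈ cyl (s k)) →
      (∀ k, k ≤ (s k).length ∧ k ≤ (t k).length) → ∃ k, x ∈ Prod.fst '' T (s k) (t k)) ∧
    (∀ y, col B Q' y ≠ 0 → ∀ s t : ℕ → List Bool, (∀ k, y ∈ cyl (t k)) →
      (∀ k, k ≤ (s k).length ∧ k ≤ (t k).length) → ∃ k, y ∈ Prod.snd '' T (s k) (t k))

/-- CORE -/
def S_CORE : Prop := ∀ (κ : Cardinal.{0}) (A B Q Q' : Set X), κ < bNum → BAw κ X →
  KDense κ A → KDense κ B → Q.Countable → Dense Q → Q'.Countable → Dense Q' →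
  Disjoint A Q → Disjoint B Q' → ∃ h : X ≃ₜ X, h '' A = B ∧ h '' Q = Q'

/-- a scale-like sequence: increasing modulo finite, unbounded, of the minimal length -/
structure Seq (ι : Type) [LinearOrder ι] (f : ι → ℕ → ℕ) : Prop where
  card : #ι = bNum
  small : ∀ i : ι, #(Iio i) < bNum
  incr : ∀ i j : ι, i < j → ∀ᶠ n in atTop, f i n < f j n
  unb : ∀ g : ℕ → ℕ, ∃ i, ¬ LE (f i) g

/-- SEQ -/
def S_SEQ : Prop := ∃ (ι : Type) (_ : LinearOrder ι) (f : ι → ℕ → ℕ), Seq ι f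

/-- the set of all finite modifications of the functions `f i` -/
def ES {ι : Type} (f : ι → ℕ → ℕ) : Set N := {x | ∃ i, ∀ᶠ n in atTop, x n = f i n}

/-- LAM -/
def S_LAM : Prop := ∀ (ι : Type) [LinearOrder ι] (f : ι → ℕ → ℕ), Seq ι f →
  KDense bNum (ES f) ∧ ∀ S ⊆ ES f, S.Countable →
    ∃ O : ℕ → Set N, (∀ n, IsOpen (O n)) ∧ ES f ∩ ⋂ n, O n = S

/-- COD: the Baire space is the Cantor space without the eventually false sequences -/
def S_COD : Prop := ∃ c : N → X, IsEmbedding c ∧ range c = {x | ∃ᶠ n in atTop, x n = true}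

/-- NB (uses SEQ, LAM, COD) -/
def S_NB : Prop := ¬ BAw bNum X ∧ ¬ BAw bNum N

/-- TR (uses COD) -/
def S_TR : Prop := ∀ κ : Cardinal.{0}, κ < 𝔠 → BAw κ N → BAw κ X

/-- ALE -/
def S_ALE : Prop := ℵ₁ ≤ bNum ∧ bNum ≤ 𝔠

/-- DQ: a countable dense set outside a small set -/
def S_DQ : Prop := ∀ A : Set X, #A < 𝔠 → ∃ Q : Set X, Q.Countable ∧ Dense Q ∧ Disjoint A Q

/-- FIN: everything (from CORE, COD, TR, NB, ALE, DQ) -/
def S_FIN : Prop := ∀ κ : Cardinal.{0}, κ ≤ bNum → (BAw κ X ↔ BA κ X) ∧ (BAw κ N ↔ BA κ N)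

end Pool.Agent.R337.BW
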