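import Mathlib
import Pool.Agent.R337.BW.Stm

/-!
# Project BW, piece ORA (by helper25)
-/

set_option autoImplicit false

namespace Pool.Agent.R337.BW

open Set Topology Filter Cardinal

theorem ora_cyl_eq (s : List Bool) :
    cyl s = ⋂ i : Fin s.length, {x : X | x i = s[(i : ℕ)]} := by
  ext x
  simp only [cyl, mem_setOf_eq, mem_iInter]
  constructor
  · intro h i
    exact h i i.isLt
  · intro h i hi
    exact h ⟨i, hi⟩

theorem ora_isClopen (s : List Bool) : IsClopen (cyl s) := by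
  rw [ora_cyl_eq]
  have h : ∀ i : Fin s.length, IsClopen {x : X | x i = s[(i : ℕ)]} := by
    intro i
    have h1 : IsClopen ({s[(i : ℕ)]} : Set Bool) := isClopen_discrete _
    exact h1.preimage (continuous_apply (i : ℕ))
  exact ⟨isClosed_iInter fun i => (h i).1, isOpen_iInter_of_finite fun i => (h i).2⟩

theorem ora_nonempty (s : List Bool) : (cyl s).Nonempty := by
  refine ⟨fun i => if h : i < s.length then s[i] else false, ?_⟩
  intro i hi
  simp only [hi, dif_pos]

theorem ora_not_open (x : X) : ¬ IsOpen ({x} : Set X) := by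
  intro h
  have h1 : Tendsto (fun n : ℕ => Function.update x n (!x n)) atTop (𝓝 x) := by
    rw [tendsto_pi_nhds]
    intro i
    refine tendsto_const_nhds.congr' ?_
    filter_upwards [eventually_gt_atTop i] with n hn
    rw [Function.update_of_ne (by omega)]
  have h2 := h1.eventually (h.mem_nhds rfl)
  obtain ⟨n, hn⟩ := h2.exists
  have h3 : Function.update x n (!x n) = x := hn
  have h4 := congrFun h3 n
  rw [Function.update_self] at h4
  cases hx : x n <;> rw [hx] at h4 <;> simp at h4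

/-- a closed set that misses a dense set, together with one point, has empty interior -/
theorem ora_interior {K Q : Set X} (hK : Disjoint K Q) (hQ : Dense Q) (z : X) :
    interior (K ∪ {z}) = ∅ := by
  by_contra hne
  obtain ⟨w, hw⟩ := nonempty_iff_ne_empty.mpr hne
  by_cases h1 : (interior (K ∪ {z}) \ {z}).Nonempty
  · obtain ⟨v, hv, hvQ⟩ := hQ.inter_open_nonempty _ (isOpen_interior.sdiff isClosed_singleton) h1
    rcases interior_subset hv.1 with h | h
    · exact (disjoint_left.mp hK) h hvQ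
    · exact hv.2 h
  · rw [not_nonempty_iff_eq_empty, diff_eq_empty] at h1
    have h2 : interior (K ∪ {z}) = {z} := by
      refine Subset.antisymm h1 ?_
      rw [singleton_subset_iff]
      have h3 : w = z := h1 hw
      exact (congrArg (· ∈ interior (K ∪ {z})) h3).mp hw
    exact ora_not_open z (h2 ▸ isOpen_interior)

/-- the first element of an enumeration in a cylinder -/
theorem ora_first (e : ℕ → X) (he : ∀ s, ∃ n, e n ∈ cyl s) :
    ∃ q : List Bool → X, (∀ s, q s ∈ cyl s ∧ q s ∈ range e) ∧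
      ∀ m, ∃ K, ∀ s : List Bool, e m ∈ cyl s → K ≤ s.length → q s = e m := by
  classical
  refine ⟨fun s => e (Nat.find (he s)), fun s => ⟨Nat.find_spec (he s), mem_range_self _⟩, ?_⟩
  intro m
  have h1 : ∀ i, ∃ c, e i ≠ e m → e i c ≠ e m c := by
    intro i
    by_cases h : e i = e m
    · exact ⟨0, fun h' => absurd h h'⟩
    · obtain ⟨c, hc⟩ := Function.ne_iff.mp h
      exact ⟨c, fun _ => hc⟩
  choose c hc using h1
  refine ⟨(Finset.range (m + 1)).sup (fun i => c i + 1), fun s hs hK => ?_⟩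
  have hn : Nat.find (he s) ≤ m := Nat.find_min' (he s) hs
  by_contra hne
  have h2 := hc _ hne
  have h3 : c (Nat.find (he s)) + 1 ≤ s.length := by
    refine le_trans ?_ hK
    exact Finset.le_sup (f := fun i => c i + 1) (Finset.mem_range.mpr (Nat.lt_succ_of_le hn))
  have h4 := Nat.find_spec (he s) (c (Nat.find (he s))) (by omega)
  have h5 := hs (c (Nat.find (he s))) (by omega)
  exact h2 (h4.trans h5.symm)

theorem ora_enum {Q : Set X} (hQ : Q.Countable) (hd : Dense Q) :
    ∃ q : List Bool → X, (∀ s, q s ∈ cyl s ∧ q s ∈ Q) ∧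
      ∀ x ∈ Q, ∃ K, ∀ s : List Bool, x ∈ cyl s → K ≤ s.length → q s = x := by
  obtain ⟨e, he⟩ := hQ.exists_eq_range hd.nonempty
  have h1 : ∀ s, ∃ n, e n ∈ cyl s := by
    intro s
    obtain ⟨x, hx, hxQ⟩ := hd.inter_open_nonempty _ (ora_isClopen s).2 (ora_nonempty s)
    rw [he] at hxQ
    obtain ⟨n, rfl⟩ := hxQ
    exact ⟨n, hx⟩
  obtain ⟨q, hq1, hq2⟩ := ora_first e h1
  refine ⟨q, fun s => ⟨(hq1 s).1, he ▸ (hq1 s).2⟩, ?_⟩
  intro x hx
  rw [he] at hx
  obtain ⟨m, rfl⟩ := hx
  exact hq2 m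

/-- domination for the points of a small set -/
theorem ora_dom (hDOM : S_DOM) {A : Set X} (hA : #A < bNum)
    (D : List Bool × List Bool → ℕ → Set X) (c : List Bool × List Bool → Set X)
    (hmono : ∀ i, Monotone (D i)) (h : ∀ i, ∀ a ∈ A ∩ c i, ∃ m, a ∈ D i m) :
    ∃ g : List Bool × List Bool → ℕ, ∀ a ∈ A,
      ∃ K : ℕ, ∀ i : List Bool × List Bool, a ∈ c i → K ≤ i.1.length → ∀ n, g i ≤ n →
        a ∈ D i n := by
  classical
  have h1 : ∀ (a : A) (i : List Bool × List Bool), ∃ m, (a : X) ∈ c i → (a : X) ∈ D i m := by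
    intro a i
    by_cases h2 : (a : X) ∈ c i
    · obtain ⟨m, hm⟩ := h i a ⟨a.2, h2⟩
      exact ⟨m, fun _ => hm⟩
    · exact ⟨0, fun h' => absurd h' h2⟩
  choose Φ hΦ using h1
  obtain ⟨g, hg⟩ := hDOM (List Bool × List Bool) A hA Φ
  refine ⟨g, fun a ha => ?_⟩
  have hfin := hg ⟨a, ha⟩
  refine ⟨hfin.toFinset.sup (fun i => i.1.length + 1), fun i hi hK n hn => ?_⟩
  have h3 : i ∉ hfin.toFinset := by
    intro hmem
    have := Finset.le_sup (f := fun i : List Bool × List Bool => i.1.length + 1) hmem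
    omega
  rw [Set.Finite.mem_toFinset, mem_setOf_eq, not_lt] at h3
  exact hmono i (h3.trans hn) (hΦ ⟨a, ha⟩ i hi)

theorem thm_ORA (hDOM : S_DOM) (hGR : S_GR) (hCYL : S_CYL) : S_ORA := by
  classical
  intro κ A B Q Q' hκ hBA hA hB hQc hQd hQc' hQd' hAQ hBQ
  have hcA : #A = κ := by
    have := hA univ isOpen_univ univ_nonempty
    rwa [inter_univ] at this
  have hcB : #B = κ := by
    have := hB univ isOpen_univ univ_nonempty
    rwa [inter_univ] at this
  have hC : ∀ i : List Bool × List Bool, ∃ C : ℕ → Set (X × X), Monotone C ∧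
      (∀ m, IsClosed (C m) ∧ C m ⊆ cyl i.1 ×ˢ cyl i.2 ∧
        (∀ p ∈ C m, ∀ q ∈ C m, p.1 = q.1 ↔ p.2 = q.2) ∧
        ∀ p ∈ C m, (p.1 ∈ A ↔ p.2 ∈ B) ∧ p.1 ∉ Q ∧ p.2 ∉ Q') ∧
      (∀ a ∈ A ∩ cyl i.1, ∃ m, a ∈ Prod.fst '' C m) ∧
      (∀ b ∈ B ∩ cyl i.2, ∃ m, b ∈ Prod.snd '' C m) := fun i =>
    hGR A B Q Q' i.1 i.2 (hcA ▸ hκ) hQc hQc' hAQ hBQ (hCYL κ hBA A B hA hB i.1 i.2)
  choose C hmono hC1 hCA hCB using hC
  obtain ⟨g1, hg1⟩ := ora_dom hDOM (A := A) (hcA ▸ hκ) (fun i m => Prod.fst '' C i m)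
    (fun i => cyl i.1) (fun i m n hmn => image_mono (hmono i hmn)) hCA
  obtain ⟨g2, hg2⟩ := ora_dom hDOM (A := B) (hcB ▸ hκ) (fun i m => Prod.snd '' C i.swap m)
    (fun i => cyl i.1) (fun i m n hmn => image_mono (hmono i.swap hmn))
    (fun i => by simpa using hCB i.swap)
  obtain ⟨q, hq1, hq2⟩ := ora_enum hQc hQd
  obtain ⟨q', hq1', hq2'⟩ := ora_enum hQc' hQd'
  set g : List Bool → List Bool → ℕ := fun s t => max (g1 (s, t)) (g2 (t, s)) with hgdef
  set T : List Bool → List Bool → Set (X × X) := fun s t => C (s, t) (g s t) ∪ {(q s, q' t)}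
    with hT
  have hcomp : ∀ s t, IsCompact (C (s, t) (g s t)) := fun s t => (hC1 (s, t) _).1.isCompact
  refine ⟨T, ?_, ?_, ?_, ?_⟩
  · intro s t
    obtain ⟨c1, c2, c3, c4⟩ := hC1 (s, t) (g s t)
    refine ⟨c1.union isClosed_singleton, ?_, ?_, ?_, ?_, ⟨(q s, q' t), Or.inr rfl⟩⟩
    · refine union_subset c2 ?_
      rw [singleton_subset_iff]
      exact ⟨(hq1 s).1, (hq1' t).1⟩
    · rintro p (hp | hp) r (hr | hr)
      · exact c3 p hp r hr
      · rw [mem_singleton_iff] at hr
        subst hr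
        exact ⟨fun h => absurd ((congrArg (· ∈ Q) h).mpr (hq1 s).2) (c4 p hp).2.1,
          fun h => absurd ((congrArg (· ∈ Q') h).mpr (hq1' t).2) (c4 p hp).2.2⟩
      · rw [mem_singleton_iff] at hp
        subst hp
        exact ⟨fun h => absurd ((congrArg (· ∈ Q) h).mp (hq1 s).2) (c4 r hr).2.1,
          fun h => absurd ((congrArg (· ∈ Q') h).mp (hq1' t).2) (c4 r hr).2.2⟩
      · rw [mem_singleton_iff] at hp hr
        subst hp
        subst hr
        exact ⟨fun _ => rfl, fun _ => rfl⟩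
    · have : Prod.fst '' (T s t) = Prod.fst '' (C (s, t) (g s t)) ∪ {q s} := by
        rw [hT]
        simp only [image_union, image_singleton]
      rw [this]
      refine ora_interior ?_ hQd (q s)
      rw [disjoint_left]
      rintro _ ⟨p, hp, rfl⟩ hpQ
      exact (c4 p hp).2.1 hpQ
    · have : Prod.snd '' (T s t) = Prod.snd '' (C (s, t) (g s t)) ∪ {q' t} := by
        rw [hT]
        simp only [image_union, image_singleton]
      rw [this]
      refine ora_interior ?_ hQd' (q' t)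
      rw [disjoint_left]
      rintro _ ⟨p, hp, rfl⟩ hpQ
      exact (c4 p hp).2.2 hpQ
  · rintro s t p (hp | hp)
    · obtain ⟨_, _, _, c4⟩ := hC1 (s, t) (g s t)
      obtain ⟨d1, d2, d3⟩ := c4 p hp
      unfold col
      by_cases h : p.1 ∈ A
      · rw [if_pos h, if_pos (d1.mp h)]
      · rw [if_neg h, if_neg (fun h' => h (d1.mpr h')), if_neg d2, if_neg d3]
    · rw [mem_singleton_iff] at hp
      subst hp
      have e1 : q s ∉ A := fun h => (disjoint_left.mp hAQ) h (hq1 s).2
      have e2 : q' t ∉ B := fun h => (disjoint_left.mp hBQ) h (hq1' t).2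
      unfold col
      rw [if_neg e1, if_neg e2, if_pos (hq1 s).2, if_pos (hq1' t).2]
  · intro x hx s t hs hlen
    by_cases hxA : x ∈ A
    · obtain ⟨K, hK⟩ := hg1 x hxA
      refine ⟨K, ?_⟩
      have := hK (s K, t K) (hs K) (hlen K).1 (g (s K) (t K)) (le_max_left _ _)
      exact image_mono subset_union_left this
    · have hxQ : x ∈ Q := by
        by_contra h
        exact hx (by unfold col; rw [if_neg hxA, if_neg h])
      obtain ⟨K, hK⟩ := hq2 x hxQ
      refine ⟨K, (q (s K), q' (t K)), Or.inr rfl, ?_⟩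
      exact hK (s K) (hs K) (hlen K).1
  · intro y hy s t ht hlen
    by_cases hyB : y ∈ B
    · obtain ⟨K, hK⟩ := hg2 y hyB
      refine ⟨K, ?_⟩
      have := hK (t K, s K) (ht K) (hlen K).2 (g (s K) (t K)) (le_max_right _ _)
      exact image_mono subset_union_left this
    · have hyQ : y ∈ Q' := by
        by_contra h
        exact hy (by unfold col; rw [if_neg hyB, if_neg h])
      obtain ⟨K, hK⟩ := hq2' y hyQ
      refine ⟨K, (q (s K), q' (t K)), Or.inr rfl, ?_⟩
      exact hK (t K) (ht K) (hlen K).2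

end Pool.Agent.R337.BW
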