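import Pool.Agent.R337.BW.Stm

set_option autoImplicit false

namespace Pool.Agent.R337.BW

open Set Topology Filter Cardinal

namespace SeqAux

theorem bdd (G : Set (ℕ → ℕ)) (hG : #G < bNum) : ∃ g, ∀ f ∈ G, LE f g := by
  by_contra h
  push Not at h
  have : bNum ≤ #G := csInf_le' ⟨G, rfl, h⟩
  exact absurd hG (not_lt.2 this)

theorem exF : ∃ F : Set (ℕ → ℕ), #F = bNum ∧ ∀ g, ∃ f ∈ F, ¬ LE f g := by
  have hne : {c : Cardinal.{0} | ∃ F : Set (ℕ → ℕ), #F = c ∧ ∀ g, ∃ f ∈ F, ¬ LE f g}.Nonempty := by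
    refine ⟨_, Set.univ, rfl, fun g => ⟨fun n => g n + 1, Set.mem_univ _, ?_⟩⟩
    intro h
    obtain ⟨n, hn⟩ := h.exists
    have hn' : g n + 1 ≤ g n := hn
    omega
  exact csInf_mem hne

end SeqAux

open SeqAux in
theorem thm_SEQ (hA : S_ALE) : S_SEQ := by
  have hinf : ℵ₀ ≤ bNum := (Cardinal.aleph0_le_aleph 1).trans hA.1
  obtain ⟨F, hF, hunb⟩ := exF
  have hcard : #(bNum.ord.ToType) = #F := by rw [Cardinal.mk_ord_toType, hF]
  obtain ⟨e⟩ := Cardinal.eq.1 hcard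
  have hstep : ∀ (i : bNum.ord.ToType) (rec : (j : bNum.ord.ToType) → j < i → (ℕ → ℕ)),
      ∃ g : ℕ → ℕ, LE (e i).1 g ∧ ∀ (j : bNum.ord.ToType) (hj : j < i),
        ∀ᶠ n in atTop, rec j hj n < g n := by
    intro i rec
    have hlt : #(insert (e i).1 (range fun j : Iio i => fun n => rec j.1 j.2 n + 1) :
        Set (ℕ → ℕ)) < bNum := by
      refine lt_of_le_of_lt (Cardinal.mk_insert_le) ?_
      refine Cardinal.add_lt_of_lt hinf ?_ (Cardinal.one_lt_aleph0.trans_le hinf)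
      refine lt_of_le_of_lt Cardinal.mk_range_le ?_
      exact Cardinal.mk_Iio_toType_ord_lt i
    obtain ⟨g, hg⟩ := bdd _ hlt
    refine ⟨g, hg _ (mem_insert _ _), fun j hj => ?_⟩
    have h1 := hg _ (mem_insert_of_mem _ ⟨⟨j, hj⟩, rfl⟩)
    filter_upwards [h1] with n hn
    exact hn
  have wf : WellFounded ((· < ·) : bNum.ord.ToType → bNum.ord.ToType → Prop) := wellFounded_lt
  let step : (i : bNum.ord.ToType) → ((j : bNum.ord.ToType) → j < i → (ℕ → ℕ)) → (ℕ → ℕ) :=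
    fun i rec => Classical.choose (hstep i rec)
  let f : bNum.ord.ToType → ℕ → ℕ := wf.fix step
  have hf : ∀ i, f i = Classical.choose (hstep i fun j _ => f j) := fun i => wf.fix_eq step i
  have hspec : ∀ i, LE (e i).1 (f i) ∧ ∀ j, j < i → ∀ᶠ n in atTop, f j n < f i n := by
    intro i
    have h := Classical.choose_spec (hstep i fun j _ => f j)
    rw [← hf i] at h
    exact h
  refine ⟨bNum.ord.ToType, inferInstance, f, ⟨?_, ?_, ?_, ?_⟩⟩
  · exact Cardinal.mk_ord_toType _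
  · exact fun i => Cardinal.mk_Iio_toType_ord_lt i
  · exact fun i j hij => (hspec j).2 i hij
  · intro g
    obtain ⟨φ, hφ, hng⟩ := hunb g
    refine ⟨e.symm ⟨φ, hφ⟩, fun hle => hng ?_⟩
    have h1 := (hspec (e.symm ⟨φ, hφ⟩)).1
    rw [Equiv.apply_symm_apply] at h1
    filter_upwards [h1, hle] with n h2 h3
    exact h2.trans h3

end Pool.Agent.R337.BW
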