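import Pool.Agent.R337.BW.Stm

set_option autoImplicit false

namespace Pool.Agent.R337.BW

open Set Topology Filter Cardinal

namespace STEP

/-- cylinders -/
abbrev cy (x : X) (k : ℕ) : Set X := PiNat.cylinder x k

theorem cyl_eq {u : List Bool} {x : X} (hx : x ∈ cyl u) : cyl u = cy x u.length := by
  ext y
  constructor
  · intro hy i hi
    rw [hy i hi, hx i hi]
  · intro hy i hi
    rw [hy i hi, hx i hi]

/-- initial part -/
def pre (x : X) (k : ℕ) : List Bool := List.ofFn (fun i : Fin k => x i)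

theorem pre_len (x : X) (k : ℕ) : (pre x k).length = k := by simp [pre]

theorem cyl_pre (x : X) (k : ℕ) : cyl (pre x k) = cy x k := by
  have h : x ∈ cyl (pre x k) := by
    intro i hi
    simp [pre]
  rw [cyl_eq h, pre_len]

theorem closed_cyl (s : List Bool) : IsClosed (cyl s) := by
  have h : cyl s = ⋂ i : Fin s.length, {x : X | x i = s[i]} := by
    ext x
    simp only [cyl, Set.mem_ofPred_eq, mem_iInter]
    constructor
    · intro h i
      exact h i.1 i.2
    · intro h i hi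
      exact h ⟨i, hi⟩
  rw [h]
  exact isClosed_iInter fun i => isClosed_eq (continuous_apply _) continuous_const

theorem small_nhds {x : X} {U : Set X} (hU : U ∈ 𝓝 x) (M : ℕ) : ∃ k, M ≤ k ∧ cy x k ⊆ U := by
  obtain ⟨V, ⟨z, n, rfl⟩, hxV, hVU⟩ :=
    (PiNat.isTopologicalBasis_cylinders (fun _ => Bool)).mem_nhds_iff.1 hU
  refine ⟨max n M, le_max_right _ _, ?_⟩
  rw [PiNat.mem_cylinder_iff_eq] at hxV
  rw [← hxV] at hVU
  exact (PiNat.cylinder_anti x (le_max_left _ _)).trans hVU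

theorem eq_of {u v : List Bool} {x : X} (hu : x ∈ cyl u) (hv : x ∈ cyl v)
    (h : u.length = v.length) : u = v := by
  apply List.ext_getElem h
  intro i h1 h2
  rw [← hu i h1, ← hv i h2]

/-- the pieces of `cyl s \ C` -/
def Pcs (s : List Bool) (C : Set X) (N0 : ℕ) : Set (List Bool) :=
  {u | N0 ≤ u.length ∧ cyl u ⊆ cyl s \ C ∧
    (u.length = N0 ∨ ∃ c ∈ C, cyl u ⊆ cy c (u.length - 1))}

theorem pcs_disj {s : List Bool} {C : Set X} {N0 : ℕ} {u v : List Bool} (hu : u ∈ Pcs s C N0)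
    (hv : v ∈ Pcs s C N0) (huv : u ≠ v) : Disjoint (cyl u) (cyl v) := by
  rw [Set.disjoint_left]
  intro x hxu hxv
  have key : ∀ u v : List Bool, u ∈ Pcs s C N0 → v ∈ Pcs s C N0 → x ∈ cyl u → x ∈ cyl v →
      u.length < v.length → False := by
    intro u v hu hv hxu hxv hlt
    rcases hv.2.2 with h | ⟨c, hc, hsub⟩
    · have := hu.1
      omega
    · have h1 : x ∈ cy c (v.length - 1) := hsub hxv
      have h2 : c ∈ cy x (v.length - 1) := (PiNat.mem_cylinder_comm _ _ _).1 h1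
      have h3 : c ∈ cy x u.length := PiNat.cylinder_anti x (by omega) h2
      rw [← cyl_eq hxu] at h3
      exact (hu.2.1 h3).2 hc
  rcases lt_trichotomy u.length v.length with h | h | h
  · exact key u v hu hv hxu hxv h
  · exact huv (eq_of hxu hxv h)
  · exact key v u hv hu hxv hxu h

theorem pcs_cover {s : List Bool} {C : Set X} {N0 : ℕ} (hC : IsClosed C) (hN : s.length ≤ N0)
    {x : X} (hx : x ∈ cyl s \ C) : ∃ u ∈ Pcs s C N0, x ∈ cyl u := by
  classical
  have hex : ∃ k, N0 ≤ k ∧ cy x k ⊆ Cᶜ := small_nhds (hC.isOpen_compl.mem_nhds hx.2) N0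
  obtain ⟨k, ⟨h1, h2⟩, hmin⟩ : ∃ k, (N0 ≤ k ∧ cy x k ⊆ Cᶜ) ∧
      ∀ m < k, ¬ (N0 ≤ m ∧ cy x m ⊆ Cᶜ) :=
    ⟨Nat.find hex, Nat.find_spec hex, fun m hm => Nat.find_min hex hm⟩
  refine ⟨pre x k, ⟨by rw [pre_len]; exact h1, ?_, ?_⟩,
    by rw [cyl_pre]; exact PiNat.self_mem_cylinder x k⟩
  · rw [cyl_pre]
    intro y hy
    refine ⟨?_, h2 hy⟩
    rw [cyl_eq hx.1]
    exact PiNat.cylinder_anti x (hN.trans h1) hy
  · rw [pre_len, cyl_pre]
    by_cases hk : k = N0
    · exact Or.inl hk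
    · right
      have h3 := hmin (k - 1) (by omega)
      have h4 : ¬ (cy x (k - 1) ⊆ Cᶜ) := fun h => h3 ⟨by omega, h⟩
      obtain ⟨c, hc1, hc2⟩ := Set.not_subset.1 h4
      refine ⟨c, not_not.1 hc2, ?_⟩
      have h5 : cy c (k - 1) = cy x (k - 1) := PiNat.mem_cylinder_iff_eq.1 hc1
      rw [h5]
      exact PiNat.cylinder_anti x (by omega)

theorem pcs_inf {s : List Bool} {C : Set X} {N0 : ℕ} (hC : IsClosed C) (hsub : C ⊆ cyl s)
    (hint : interior C = ∅) (hN : s.length ≤ N0) {c : X} (hc : c ∈ C) (k : ℕ) :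
    {w | w ∈ Pcs s C N0 ∧ cyl w ⊆ cy c k}.Infinite := by
  intro hfin
  have hopen : IsOpen (cy c (max k N0) \
      ⋃ w ∈ {w | w ∈ Pcs s C N0 ∧ cyl w ⊆ cy c k}, cyl w) :=
    (PiNat.isOpen_cylinder _ c _).sdiff (hfin.isClosed_biUnion fun w _ => closed_cyl w)
  have hmem : c ∈ (cy c (max k N0) \
      ⋃ w ∈ {w | w ∈ Pcs s C N0 ∧ cyl w ⊆ cy c k}, cyl w) := by
    refine ⟨PiNat.self_mem_cylinder c _, fun h => ?_⟩
    simp only [mem_iUnion] at h
    obtain ⟨w, hw, h2⟩ := h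
    exact (hw.1.2.1 h2).2 hc
  have hsubC : (cy c (max k N0) \
      ⋃ w ∈ {w | w ∈ Pcs s C N0 ∧ cyl w ⊆ cy c k}, cyl w) ⊆ C := by
    rintro x ⟨hx1, hx2⟩
    by_contra hxC
    have hxs : x ∈ cyl s := by
      rw [cyl_eq (hsub hc)]
      exact PiNat.cylinder_anti c (hN.trans (le_max_right _ _)) hx1
    obtain ⟨w, hw, hxw⟩ := pcs_cover hC hN ⟨hxs, hxC⟩
    have hcx : c ∈ cy x (max k N0) := (PiNat.mem_cylinder_comm _ _ _).1 hx1
    rcases le_or_gt w.length (max k N0) with h | h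
    · have h3 : c ∈ cyl w := by
        rw [cyl_eq hxw]
        exact PiNat.cylinder_anti x h hcx
      exact (hw.2.1 h3).2 hc
    · apply hx2
      simp only [mem_iUnion]
      refine ⟨w, ⟨hw, ?_⟩, hxw⟩
      rw [cyl_eq hxw]
      refine (PiNat.cylinder_anti x h.le).trans ?_
      have h3 : cy x (max k N0) = cy c (max k N0) := PiNat.mem_cylinder_iff_eq.1 hx1
      exact h3.subset.trans (PiNat.cylinder_anti c (le_max_left _ _))
  have h3 : c ∈ interior C := interior_maximal hsubC hopen hmem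
  rw [hint] at h3
  exact h3

theorem side (s : List Bool) (C : Set X) (N0 : ℕ) (hC : IsClosed C) (hsub : C ⊆ cyl s)
    (hint : interior C = ∅) (hne : C.Nonempty) (hN : s.length ≤ N0) :
    ∃ u : ℕ → List Bool, Function.Injective u ∧ (∀ j, N0 ≤ (u j).length) ∧
      (Pairwise fun i j => Disjoint (cyl (u i)) (cyl (u j))) ∧ (⋃ j, cyl (u j)) = cyl s \ C ∧
      (∀ j, (u j).length = N0 ∨ ∃ c ∈ C, cyl (u j) ⊆ cy c ((u j).length - 1)) ∧
      ∀ c ∈ C, ∀ k, {j | cyl (u j) ⊆ cy c k}.Infinite := by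
  obtain ⟨c0, hc0⟩ := hne
  have hinf : (Pcs s C N0).Infinite :=
    (pcs_inf hC hsub hint hN hc0 0).mono (fun w hw => hw.1)
  have : Infinite ↥(Pcs s C N0) := hinf.to_subtype
  obtain ⟨hden⟩ := nonempty_denumerable ↥(Pcs s C N0)
  let e : ℕ ≃ ↥(Pcs s C N0) := (Denumerable.eqv _).symm
  have hinj : Function.Injective fun j => (e j).1 :=
    Subtype.val_injective.comp e.injective
  refine ⟨fun j => (e j).1, hinj, fun j => (e j).2.1, ?_, ?_, fun j => (e j).2.2.2, ?_⟩
  · intro i j hij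
    exact pcs_disj (e i).2 (e j).2 (fun h => hij (hinj h))
  · ext x
    constructor
    · intro hx
      obtain ⟨j, hj⟩ := mem_iUnion.1 hx
      exact (e j).2.2.1 hj
    · intro hx
      obtain ⟨w, hw, hxw⟩ := pcs_cover hC hN hx
      refine mem_iUnion.2 ⟨e.symm ⟨w, hw⟩, ?_⟩
      simpa using hxw
  · intro c hc k hfin
    apply pcs_inf hC hsub hint hN hc k
    refine (hfin.image fun j => (e j).1).subset ?_
    rintro w ⟨hw, hwc⟩
    refine ⟨e.symm ⟨w, hw⟩, ?_, ?_⟩
    · simpa using hwc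
    · simp

end STEP

open STEP in
theorem thm_STEP : S_STEP := by
  classical
  intro s t T hT n
  have hTc : IsCompact T := hT.closed.isCompact
  have hCc : IsClosed (Prod.fst '' T) := (hTc.image continuous_fst).isClosed
  have hDc : IsClosed (Prod.snd '' T) := (hTc.image continuous_snd).isClosed
  have hCs : Prod.fst '' T ⊆ cyl s := by
    rintro _ ⟨q, hq, rfl⟩
    exact (hT.sub hq).1
  have hDs : Prod.snd '' T ⊆ cyl t := by
    rintro _ ⟨q, hq, rfl⟩
    exact (hT.sub hq).2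
  obtain ⟨N0, hN0⟩ : ∃ N0, N0 = max n (max s.length t.length) := ⟨_, rfl⟩
  have hNn : n ≤ N0 := by omega
  have hNs : s.length ≤ N0 := by omega
  have hNt : t.length ≤ N0 := by omega
  obtain ⟨u, hu1, hu2, hu3, hu4, hu5, hu6⟩ :=
    side s (Prod.fst '' T) N0 hCc hCs hT.nd1 (hT.ne.image _) hNs
  obtain ⟨v, hv1, hv2, hv3, hv4, hv5, hv6⟩ :=
    side t (Prod.snd '' T) N0 hDc hDs hT.nd2 (hT.ne.image _) hNt
  let R : ℕ → ℕ → Prop := fun i j => ∀ k, N0 ≤ k → k < (u i).length → k < (v j).length →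
    ∃ q ∈ T, cyl (u i) ⊆ cy q.1 k ∧ cyl (v j) ⊆ cy q.2 k
  have hR1 : ∀ i, {j | R i j}.Infinite := by
    intro i
    rcases hu5 i with h | ⟨c, ⟨q, hq, rfl⟩, hc⟩
    · have h1 : {j | R i j} = Set.univ := by
        ext j
        simp only [Set.mem_ofPred_eq, mem_univ, iff_true]
        intro k h1 h2
        omega
      rw [h1]
      exact infinite_univ
    · refine (hv6 q.2 ⟨q, hq, rfl⟩ ((u i).length - 1)).mono ?_
      intro j hj k h1 h2 h3
      refine ⟨q, hq, hc.trans (PiNat.cylinder_anti _ (by omega)), ?_⟩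
      exact (show cyl (v j) ⊆ cy q.2 ((u i).length - 1) from hj).trans
        (PiNat.cylinder_anti _ (by omega))
  have hR2 : ∀ j, {i | R i j}.Infinite := by
    intro j
    rcases hv5 j with h | ⟨c, ⟨q, hq, rfl⟩, hc⟩
    · have h1 : {i | R i j} = Set.univ := by
        ext i
        simp only [Set.mem_ofPred_eq, mem_univ, iff_true]
        intro k h1 h2 h3
        omega
      rw [h1]
      exact infinite_univ
    · refine (hu6 q.1 ⟨q, hq, rfl⟩ ((v j).length - 1)).mono ?_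
      intro i hi k h1 h2 h3
      refine ⟨q, hq, ?_, hc.trans (PiNat.cylinder_anti _ (by omega))⟩
      exact (show cyl (u i) ⊆ cy q.1 ((v j).length - 1) from hi).trans
        (PiNat.cylinder_anti _ (by omega))
  obtain ⟨f, hf1, hf2⟩ := extraction_forall_of_frequently (P := R)
    (fun i => Nat.frequently_atTop_iff_infinite.2 (hR1 i))
  obtain ⟨g, hg1, hg2⟩ := extraction_forall_of_frequently (P := fun j i => R i j)
    (fun j => Nat.frequently_atTop_iff_infinite.2 (hR2 j))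
  obtain ⟨β, hβ, hβR⟩ := Function.Embedding.schroeder_bernstein_of_rel hf1.injective
    hg1.injective R hf2 hg2
  refine ⟨u, fun j => v (β j), fun j => ⟨hNn.trans (hu2 j), hNn.trans (hv2 _)⟩, hu3, ?_, hu4,
    ?_, ?_⟩
  · intro i j hij
    exact hv3 (fun h => hij (hβ.1 h))
  · rw [← hv4]
    exact hβ.2.iUnion_comp (fun j => cyl (v j))
  · apply isClosed_of_closure_subset
    rintro ⟨x, y⟩ hz
    by_cases hzT : (x, y) ∈ T
    · exact Or.inl hzT
    have hnh : Tᶜ ∈ 𝓝 (x, y) := hT.closed.isOpen_compl.mem_nhds hzT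
    obtain ⟨U, hU, V, hV, hUV⟩ := mem_nhds_prod_iff.1 hnh
    obtain ⟨k1, hk1, hk1U⟩ := small_nhds hU N0
    obtain ⟨k2, hk2, hk2V⟩ := small_nhds hV N0
    obtain ⟨k, hk⟩ : ∃ k, k = max k1 k2 := ⟨_, rfl⟩
    have hkU : cy x k ⊆ U := (PiNat.cylinder_anti x (by omega)).trans hk1U
    have hkV : cy y k ⊆ V := (PiNat.cylinder_anti y (by omega)).trans hk2V
    have hJ : {j | (u j).length ≤ k ∨ (v (β j)).length ≤ k}.Finite := by
      refine Set.Finite.union ?_ ?_
      · exact Set.Finite.preimage hu1.injOn (List.finite_length_le Bool k)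
      · exact Set.Finite.preimage (hv1.comp hβ.1).injOn (List.finite_length_le Bool k)
    have hopen : IsOpen (cy x k ×ˢ cy y k) :=
      (PiNat.isOpen_cylinder _ x k).prod (PiNat.isOpen_cylinder _ y k)
    have hzin : (x, y) ∈ cy x k ×ˢ cy y k :=
      ⟨PiNat.self_mem_cylinder x k, PiNat.self_mem_cylinder y k⟩
    have h1 := hopen.inter_closure ⟨hzin, hz⟩
    have h2 : (cy x k ×ˢ cy y k) ∩ (T ∪ ⋃ j, cyl (u j) ×ˢ cyl (v (β j))) ⊆
        ⋃ j ∈ {j | (u j).length ≤ k ∨ (v (β j)).length ≤ k}, cyl (u j) ×ˢ cyl (v (β j)) := by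
      rintro ⟨a, b⟩ ⟨⟨ha, hb⟩, hab | hab⟩
      · exact absurd hab (hUV ⟨hkU ha, hkV hb⟩)
      · obtain ⟨j, hja, hjb⟩ := mem_iUnion.1 hab
        simp only at ha hb hja hjb
        simp only [mem_iUnion]
        refine ⟨j, ?_, hja, hjb⟩
        by_contra hcon
        simp only [Set.mem_ofPred_eq, not_or, not_le] at hcon
        obtain ⟨q, hq, hq1, hq2⟩ := hβR j k (by omega) hcon.1 hcon.2
        have h3 : cy a k = cy q.1 k := PiNat.mem_cylinder_iff_eq.1 (hq1 hja)
        have h4 : cy b k = cy q.2 k := PiNat.mem_cylinder_iff_eq.1 (hq2 hjb)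
        have h5 : cy a k = cy x k := PiNat.mem_cylinder_iff_eq.1 ha
        have h6 : cy b k = cy y k := PiNat.mem_cylinder_iff_eq.1 hb
        have h7 : q.1 ∈ cy x k := by
          rw [← h5, h3]
          exact PiNat.self_mem_cylinder _ _
        have h8 : q.2 ∈ cy y k := by
          rw [← h6, h4]
          exact PiNat.self_mem_cylinder _ _
        exact (hUV (show q ∈ U ×ˢ V from ⟨hkU h7, hkV h8⟩)) hq
    have h3 : IsClosed (⋃ j ∈ {j | (u j).length ≤ k ∨ (v (β j)).length ≤ k},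
        cyl (u j) ×ˢ cyl (v (β j))) :=
      hJ.isClosed_biUnion fun j _ => (closed_cyl _).prod (closed_cyl _)
    have h4 := (closure_minimal h2 h3) h1
    simp only [mem_iUnion] at h4
    obtain ⟨j, -, hj⟩ := h4
    exact Or.inr (mem_iUnion.2 ⟨j, hj⟩)

end Pool.Agent.R337.BW
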