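import Pool.Agent.R337.BW.Stm
import Pool.Agent.R337.BW.H506

/-! Project BW: piece TR. -/

set_option autoImplicit false

namespace Pool.Agent.R337.BW.TRx

open Set Topology Filter Cardinal Pool.Agent.R337.BW Pool.Agent.R337.BW.H506

/-- translation by `t` -/
def tr (t : X) : X ≃ₜ X where
  toFun x := fun n => xor (x n) (t n)
  invFun x := fun n => xor (x n) (t n)
  left_inv x := by funext n; simp
  right_inv x := by funext n; simp
  continuous_toFun := by
    refine continuous_pi fun n => ?_
    exact (continuous_of_discreteTopology (f := fun b : Bool => xor b (t n))).comp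
      (continuous_apply n)
  continuous_invFun := by
    refine continuous_pi fun n => ?_
    exact (continuous_of_discreteTopology (f := fun b : Bool => xor b (t n))).comp
      (continuous_apply n)

theorem tr_apply (t x : X) (n : ℕ) : tr t x n = xor (x n) (t n) := rfl

theorem exists_tr (A : Set X) (hA : #A < 𝔠) : ∃ t : X, Disjoint (tr t '' A) Q0 := by
  classical
  let f : Q0 × A → X := fun p => fun n => xor ((p.1 : X) n) ((p.2 : X) n)
  have h1 : #(range f) < 𝔠 := by
    refine lt_of_le_of_lt Cardinal.mk_range_le ?_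
    rw [Cardinal.mk_prod, Cardinal.lift_id, Cardinal.lift_id]
    refine Cardinal.mul_lt_of_lt aleph0_le_continuum ?_ hA
    exact lt_of_le_of_lt Q0_countable.le_aleph0 aleph0_lt_continuum
  have h2 : ∃ t : X, t ∉ range f := by
    by_contra h
    have h3 : range f = Set.univ := by
      ext t
      simp only [mem_univ, iff_true]
      by_contra h'
      exact h ⟨t, h'⟩
    rw [h3, Cardinal.mk_univ] at h1
    have h4 : #X = 𝔠 := by simp [X]
    rw [h4] at h1
    exact lt_irrefl _ h1
  obtain ⟨t, ht⟩ := h2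
  refine ⟨t, Set.disjoint_left.mpr ?_⟩
  rintro y ⟨a, ha, rfl⟩ hy
  refine ht ⟨(⟨tr t a, hy⟩, ⟨a, ha⟩), ?_⟩
  funext n
  simp only [f, tr_apply]
  cases a n <;> cases t n <;> rfl

end Pool.Agent.R337.BW.TRx

namespace Pool.Agent.R337.BW

open Set Topology Filter Cardinal Pool.Agent.R337.BW.H506 Pool.Agent.R337.BW.TRx

theorem thm_TR (hC : S_COD) : S_TR := by
  intro κ hκ hN A B hA hB
  obtain ⟨c, hc, hr⟩ := hC
  have key : ∀ A : Set X, KDense κ A → ∃ A' : Set N, KDense κ A' ∧ Nonempty (A ≃ₜ A') := by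
    intro A hA
    have hcard : #A < 𝔠 := by rw [kd_card hA]; exact hκ
    obtain ⟨t, ht⟩ := exists_tr A hcard
    have hsub : tr t '' A ⊆ range c := by
      rw [hr]
      intro x hx
      by_contra h
      have h' : x ∈ {x : X | ∃ᶠ n in atTop, x n = true}ᶜ := h
      rw [compl_T] at h'
      exact Set.disjoint_left.mp ht hx h'
    have hA1 : KDense κ (tr t '' A) :=
      kd_image (tr t).continuous (tr t).injective (tr t).surjective.denseRange hA
    refine ⟨c ⁻¹' (tr t '' A), kd_preimage hc hA1 hsub, ?_⟩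
    obtain ⟨e1⟩ := homeo_image (tr t).isEmbedding A
    obtain ⟨e2⟩ := homeo_image hc (c ⁻¹' (tr t '' A))
    have h3 : c '' (c ⁻¹' (tr t '' A)) = tr t '' A := Set.image_preimage_eq_of_subset hsub
    exact ⟨e1.trans ((e2.trans (Homeomorph.setCongr h3)).symm)⟩
  obtain ⟨A', hA', ⟨e1⟩⟩ := key A hA
  obtain ⟨B', hB', ⟨e2⟩⟩ := key B hB
  obtain ⟨e3⟩ := hN A' B' hA' hB'
  exact ⟨e1.trans (e3.trans e2.symm)⟩

end Pool.Agent.R337.BW
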