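import Pool.Agent.R337.BW.LIM
import Pool.Agent.R337.BW.COV
import Pool.Agent.R337.BW.DOM
import Pool.Agent.R337.BW.CYL
import Pool.Agent.R337.BW.GR
import Pool.Agent.R337.BW.STEP
import Pool.Agent.R337.BW.ORA
import Pool.Agent.R337.BW.CORE
import Pool.Agent.R337.BW.SEQ
import Pool.Agent.R337.BW.LAM
import Pool.Agent.R337.BW.COD
import Pool.Agent.R337.BW.NB
import Pool.Agent.R337.BW.TR
import Pool.Agent.R337.BW.ALE
import Pool.Agent.R337.BW.FIN

/-!
Assembly of project BW: for every cardinal `κ ≤ 𝔟`, the weak Baumgartner axiom `BAw κ`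
and the Baumgartner axiom `BA κ` are equivalent, on Cantor space and on Baire space.
-/

namespace Pool.Agent.R337.BW

theorem s_core : S_CORE :=
  thm_CORE thm_STEP (thm_ORA thm_DOM (thm_GR thm_COV) thm_CYL)

theorem s_nb : S_NB := thm_NB (thm_SEQ thm_ALE) (thm_LAM thm_COV thm_ALE) thm_COD thm_ALE

theorem s_fin : S_FIN := thm_FIN s_core thm_COD (thm_TR thm_COD) s_nb thm_ALE thm_DQ

end Pool.Agent.R337.BW
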