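import Pool.Agent.R337.BW.Stm

/-! Project BW, piece LIM: the limit homeomorphism of the tree of cylinders. -/

set_option autoImplicit false

namespace Pool.Agent.R337.BW

open Set Topology Filter

section Tree

variable {Y : Type} {U C : List ℕ → Set Y}

/-- the tree facts for one coordinate -/
structure TreeFacts (U C : List ℕ → Set Y) : Prop where
  sub : ∀ l, C l ⊆ U l
  child : ∀ l j, U (j :: l) ⊆ U l
  avoid : ∀ l j x, x ∈ U (j :: l) → x ∉ C l
  sib : ∀ l i j, i ≠ j → Disjoint (U (i :: l)) (U (j :: l))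
  cov : ∀ l x, x ∈ U l → x ∈ C l ∨ ∃ j, x ∈ U (j :: l)
  root : U [] = univ

variable (H : TreeFacts U C)

include H

lemma TreeFacts.eq_of_mem {x : Y} : ∀ {l l' : List ℕ}, l.length = l'.length → x ∈ U l → x ∈ U l' →
    l = l' := by
  intro l
  induction l with
  | nil =>
    intro l' h _ _
    cases l' with
    | nil => rfl
    | cons j l' => simp at h
  | cons i l ih =>
    intro l' h h1 h2
    cases l' with
    | nil => simp at h
    | cons j l' =>
      have hl : l = l' := ih (by simpa using h) (H.child _ _ h1) (H.child _ _ h2)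
      subst hl
      by_cases hij : i = j
      · rw [hij]
      · exact absurd h2 (Set.disjoint_left.1 (H.sib l i j hij) h1)

lemma TreeFacts.notMem_C {x : Y} : ∀ {l' l : List ℕ}, l.length < l'.length → x ∈ C l → x ∈ U l' →
    False := by
  intro l'
  induction l' with
  | nil => intro l h; simp at h
  | cons j l' ih =>
    intro l h h1 h2
    rcases Nat.lt_or_ge l.length l'.length with h3 | h3
    · exact ih h3 h1 (H.child _ _ h2)
    · have h4 : l.length = l'.length := by simp at h; omega
      have : l = l' := H.eq_of_mem h4 (H.sub _ h1) (H.child _ _ h2)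
      subst this
      exact H.avoid _ _ _ h2 h1

lemma TreeFacts.exists_node (k : ℕ) (x : Y) :
    (∃ l, l.length < k ∧ x ∈ C l) ∨ ∃ l, l.length = k ∧ x ∈ U l := by
  induction k with
  | zero => right; exact ⟨[], rfl, by rw [H.root]; trivial⟩
  | succ k ih =>
    rcases ih with ⟨l, h1, h2⟩ | ⟨l, h1, h2⟩
    · left; exact ⟨l, by omega, h2⟩
    · rcases H.cov l x h2 with h3 | ⟨j, h3⟩
      · left; exact ⟨l, by omega, h3⟩
      · right; exact ⟨j :: l, by simp [h1], h3⟩

end Tree

lemma homeo_of_rel (R : Set (X × X)) (hR : IsClosed R) (h1 : ∀ x, ∃ y, (x, y) ∈ R)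
    (h2 : ∀ x y y', (x, y) ∈ R → (x, y') ∈ R → y = y') (h3 : ∀ y, ∃ x, (x, y) ∈ R)
    (h4 : ∀ x x' y, (x, y) ∈ R → (x', y) ∈ R → x = x') : ∃ h : X ≃ₜ X, ∀ x, (x, h x) ∈ R := by
  have : CompactSpace R := isCompact_iff_compactSpace.1 hR.isCompact
  have e1 : Function.Bijective (fun z : R => z.1.1) := by
    constructor
    · intro z z' hzz
      have hzz' : z.1.1 = z'.1.1 := hzz
      apply Subtype.ext
      refine Prod.ext hzz' ?_
      have hz := z.2
      have hz' := z'.2
      refine h2 z.1.1 _ _ hz ?_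
      rw [hzz']; exact hz'
    · intro x
      obtain ⟨y, hy⟩ := h1 x
      exact ⟨⟨(x, y), hy⟩, rfl⟩
  have e2 : Function.Bijective (fun z : R => z.1.2) := by
    constructor
    · intro z z' hzz
      have hzz' : z.1.2 = z'.1.2 := hzz
      apply Subtype.ext
      refine Prod.ext ?_ hzz'
      have hz := z.2
      have hz' := z'.2
      refine h4 _ _ z.1.2 hz ?_
      rw [hzz']; exact hz'
    · intro y
      obtain ⟨x, hx⟩ := h3 y
      exact ⟨⟨(x, y), hx⟩, rfl⟩
  have c1 : Continuous (Equiv.ofBijective _ e1) := by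
    show Continuous (fun z : R => z.1.1)
    fun_prop
  have c2 : Continuous (Equiv.ofBijective _ e2) := by
    show Continuous (fun z : R => z.1.2)
    fun_prop
  let g1 : R ≃ₜ X := c1.homeoOfEquivCompactToT2
  let g2 : R ≃ₜ X := c2.homeoOfEquivCompactToT2
  refine ⟨g1.symm.trans g2, fun x => ?_⟩
  have hx1 : (g1.symm x).1.1 = x := g1.apply_symm_apply x
  have hx2 : (g1.symm.trans g2) x = (g1.symm x).1.2 := rfl
  rw [hx2]
  have e : (x, (g1.symm x).1.2) = (g1.symm x).1 := Prod.ext hx1.symm rfl
  rw [e]
  exact (g1.symm x).2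

lemma cyl_isClopen (s : List Bool) : IsClopen (cyl s) := by
  have : cyl s = ⋂ i : Fin s.length, {x : X | x i = s[i]} := by
    ext x
    simp only [cyl, mem_ofPred_eq, mem_iInter]
    constructor
    · intro h i; exact h i i.2
    · intro h i hi; exact h ⟨i, hi⟩
  rw [this]
  refine isClopen_iInter_of_finite fun i => ?_
  exact (isClopen_discrete ({s[i]} : Set Bool)).preimage (continuous_apply _)

lemma cyl_nonempty (s : List Bool) : (cyl s).Nonempty := by
  refine ⟨fun i => s.getD i false, fun i hi => ?_⟩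
  simp [List.getD_eq_getElem?_getD, hi]

theorem thm_LIM (hstep : S_STEP) : S_LIM := by
  intro T hT χ χ' hχ cap1 cap2
  choose P P' hlen hd hd' hu hu' hcl using fun s t n => hstep s t (T s t) (hT s t) n
  let node : List ℕ → List Bool × List Bool := fun l =>
    List.rec ([], []) (fun j l nd => (P nd.1 nd.2 (l.length + 1) j, P' nd.1 nd.2 (l.length + 1) j)) l
  have node_cons : ∀ j l, node (j :: l) = (P (node l).1 (node l).2 (l.length + 1) j,
      P' (node l).1 (node l).2 (l.length + 1) j) := fun j l => rfl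
  set U : List ℕ → Set X := fun l => cyl (node l).1 with hU
  set W : List ℕ → Set X := fun l => cyl (node l).2 with hW
  set TT : List ℕ → Set (X × X) := fun l => T (node l).1 (node l).2 with hTT
  have len : ∀ l, l.length ≤ (node l).1.length ∧ l.length ≤ (node l).2.length := by
    intro l
    cases l with
    | nil => simp
    | cons j l =>
      rw [node_cons]
      have := hlen (node l).1 (node l).2 (l.length + 1) j
      simpa using this
  have union1 : ∀ l, (⋃ j, U (j :: l)) = U l \ Prod.fst '' TT l := fun l => hu _ _ _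
  have union2 : ∀ l, (⋃ j, W (j :: l)) = W l \ Prod.snd '' TT l := fun l => hu' _ _ _
  have H1 : TreeFacts U (fun l => Prod.fst '' TT l) := by
    refine ⟨?_, ?_, ?_, ?_, ?_, ?_⟩
    · rintro l _ ⟨z, hz, rfl⟩
      exact ((hT _ _).sub hz).1
    · intro l j x hx
      have : x ∈ ⋃ j, U (j :: l) := mem_iUnion.2 ⟨j, hx⟩
      rw [union1] at this
      exact this.1
    · intro l j x hx
      have : x ∈ ⋃ j, U (j :: l) := mem_iUnion.2 ⟨j, hx⟩
      rw [union1] at this
      exact this.2
    · intro l i j hij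
      exact hd _ _ _ hij
    · intro l x hx
      by_cases hc : x ∈ Prod.fst '' TT l
      · exact Or.inl hc
      · right
        have : x ∈ ⋃ j, U (j :: l) := by rw [union1]; exact ⟨hx, hc⟩
        exact mem_iUnion.1 this
    · ext x
      simp only [hU, mem_univ, iff_true]
      intro i hi
      exact absurd hi (by simp [node])
  have H2 : TreeFacts W (fun l => Prod.snd '' TT l) := by
    refine ⟨?_, ?_, ?_, ?_, ?_, ?_⟩
    · rintro l _ ⟨z, hz, rfl⟩
      exact ((hT _ _).sub hz).2
    · intro l j x hx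
      have : x ∈ ⋃ j, W (j :: l) := mem_iUnion.2 ⟨j, hx⟩
      rw [union2] at this
      exact this.1
    · intro l j x hx
      have : x ∈ ⋃ j, W (j :: l) := mem_iUnion.2 ⟨j, hx⟩
      rw [union2] at this
      exact this.2
    · intro l i j hij
      exact hd' _ _ _ hij
    · intro l x hx
      by_cases hc : x ∈ Prod.snd '' TT l
      · exact Or.inl hc
      · right
        have : x ∈ ⋃ j, W (j :: l) := by rw [union2]; exact ⟨hx, hc⟩
        exact mem_iUnion.1 this
    · ext x
      simp only [hW, mem_univ, iff_true]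
      intro i hi
      exact absurd hi (by simp [node])
  set R : ℕ → Set (X × X) := fun k => {z | (∃ l, l.length < k ∧ z ∈ TT l) ∨
    ∃ l, l.length = k ∧ z.1 ∈ U l ∧ z.2 ∈ W l} with hR
  have Rsucc : ∀ k, R (k + 1) ⊆ R k := by
    rintro k z (⟨l, h1, h2⟩ | ⟨l, h1, h2, h3⟩)
    · rcases Nat.lt_or_ge l.length k with h3 | h3
      · exact Or.inl ⟨l, h3, h2⟩
      · refine Or.inr ⟨l, by omega, ?_⟩
        exact (hT _ _).sub h2
    · cases l with
      | nil => simp at h1
      | cons j l =>
        exact Or.inr ⟨l, by simpa using h1, H1.child _ _ h2, H2.child _ _ h3⟩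
  have Rcl : ∀ k, IsClosed (R k) := by
    intro k
    induction k with
    | zero =>
      have : R 0 = univ := by
        ext z
        simp only [mem_univ, iff_true]
        exact Or.inr ⟨[], rfl, by rw [H1.root]; trivial, by rw [H2.root]; trivial⟩
      rw [this]; exact isClosed_univ
    | succ k ih =>
      refine isClosed_of_closure_subset fun z hz => ?_
      have hzk : z ∈ R k := closure_minimal (Rsucc k) ih hz
      rcases hzk with ⟨l, h1, h2⟩ | ⟨l, h1, h2, h3⟩
      · exact Or.inl ⟨l, by omega, h2⟩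
      · have hS : IsClosed (TT l ∪ ⋃ j, U (j :: l) ×ˢ W (j :: l)) := hcl _ _ _
        have hopen : IsOpen (U l ×ˢ W l) := (cyl_isClopen _).isOpen.prod (cyl_isClopen _).isOpen
        have hsub : R (k + 1) ∩ (U l ×ˢ W l) ⊆ TT l ∪ ⋃ j, U (j :: l) ×ˢ W (j :: l) := by
          rintro w ⟨hw | hw, hw1, hw2⟩
          · obtain ⟨m, hm1, hm2⟩ := hw
            have hm3 : w.1 ∈ Prod.fst '' TT m := ⟨w, hm2, rfl⟩
            have hml : m.length = l.length := by
              by_contra hne
              exact H1.notMem_C (l := m) (l' := l) (by omega) hm3 hw1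
            have : m = l := H1.eq_of_mem hml (H1.sub _ hm3) hw1
            subst this
            exact Or.inl hm2
          · obtain ⟨m, hm1, hm2, hm3⟩ := hw
            cases m with
            | nil => simp at hm1
            | cons j m =>
              have : m = l := H1.eq_of_mem (by simp at hm1; omega) (H1.child _ _ hm2) hw1
              subst this
              exact Or.inr (mem_iUnion.2 ⟨j, hm2, hm3⟩)
        have hz2 : z ∈ closure (R (k + 1) ∩ (U l ×ˢ W l)) := by
          rw [mem_closure_iff] at hz ⊢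
          intro O hO hzO
          obtain ⟨w, hw1, hw2⟩ := hz (O ∩ (U l ×ˢ W l)) (hO.inter hopen) ⟨hzO, h2, h3⟩
          exact ⟨w, hw1.1, hw2, hw1.2⟩
        have hz3 := closure_minimal hsub hS hz2
        rcases hz3 with h4 | h4
        · exact Or.inl ⟨l, by omega, h4⟩
        · obtain ⟨j, hj⟩ := mem_iUnion.1 h4
          exact Or.inr ⟨j :: l, by simp [h1], hj.1, hj.2⟩
  have Ranti : ∀ k m, k ≤ m → R m ⊆ R k := by
    intro k m hkm
    induction hkm with
    | refl => exact subset_rfl
    | step _ ih => exact (Rsucc _).trans ih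
  -- membership in the intersection over a captured point
  have cap_fst : ∀ x y l, (∀ k, (x, y) ∈ R k) → x ∈ Prod.fst '' TT l → (x, y) ∈ TT l := by
    intro x y l hxy hx
    rcases hxy (l.length + 1) with ⟨m, hm1, hm2⟩ | ⟨m, hm1, hm2, -⟩
    · have hm3 : x ∈ Prod.fst '' TT m := ⟨_, hm2, rfl⟩
      have hml : m.length = l.length := by
        by_contra hne
        exact H1.notMem_C (l := m) (l' := l) (by omega) hm3 (H1.sub _ hx)
      have : m = l := H1.eq_of_mem hml (H1.sub _ hm3) (H1.sub _ hx)
      subst this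
      exact hm2
    · exact (H1.notMem_C (l := l) (l' := m) (by omega) hx hm2).elim
  have cap_snd : ∀ x y l, (∀ k, (x, y) ∈ R k) → y ∈ Prod.snd '' TT l → (x, y) ∈ TT l := by
    intro x y l hxy hx
    rcases hxy (l.length + 1) with ⟨m, hm1, hm2⟩ | ⟨m, hm1, -, hm2⟩
    · have hm3 : y ∈ Prod.snd '' TT m := ⟨_, hm2, rfl⟩
      have hml : m.length = l.length := by
        by_contra hne
        exact H2.notMem_C (l := m) (l' := l) (by omega) hm3 (H2.sub _ hx)
      have : m = l := H2.eq_of_mem hml (H2.sub _ hm3) (H2.sub _ hx)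
      subst this
      exact hm2
    · exact (H2.notMem_C (l := l) (l' := m) (by omega) hx hm2).elim
  have agree : ∀ (s : List Bool) (k : ℕ) (y y' : X), k < s.length → y ∈ cyl s → y' ∈ cyl s →
      y k = y' k := by
    intro s k y y' hk hy hy'
    rw [hy k hk, hy' k hk]
  obtain ⟨h, hh⟩ := homeo_of_rel (⋂ k, R k) (isClosed_iInter Rcl)
    (by
      intro x
      have hne : (⋂ k, {y | (x, y) ∈ R k}).Nonempty := by
        refine IsCompact.nonempty_iInter_of_sequence_nonempty_isCompact_isClosed
          (fun k => {y | (x, y) ∈ R k}) ?_ ?_ ?_ ?_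
        · intro k y hy
          exact Rsucc k hy
        · intro k
          rcases H1.exists_node k x with ⟨l, h1, ⟨z, hz, rfl⟩⟩ | ⟨l, h1, h2⟩
          · exact ⟨z.2, Or.inl ⟨l, h1, hz⟩⟩
          · obtain ⟨y, hy⟩ := cyl_nonempty (node l).2
            exact ⟨y, Or.inr ⟨l, h1, h2, hy⟩⟩
        · exact ((Rcl 0).preimage (by fun_prop : Continuous fun y : X => (x, y))).isCompact
        · intro k
          exact (Rcl k).preimage (by fun_prop : Continuous fun y : X => (x, y))
      obtain ⟨y, hy⟩ := hne
      exact ⟨y, mem_iInter.2 fun k => mem_iInter.1 hy k⟩)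
    (by
      intro x y y' hy hy'
      rw [mem_iInter] at hy hy'
      by_cases hx : ∃ l, x ∈ Prod.fst '' TT l
      · obtain ⟨l, hl⟩ := hx
        exact ((hT _ _).inj _ (cap_fst x y l hy hl) _ (cap_fst x y' l hy' hl)).1 rfl
      · funext k
        rcases hy (k + 1) with ⟨l, -, h2⟩ | ⟨l, h1, h2, h3⟩
        · exact (hx ⟨l, _, h2, rfl⟩).elim
        rcases hy' (k + 1) with ⟨l', -, h2'⟩ | ⟨l', h1', h2', h3'⟩
        · exact (hx ⟨l', _, h2', rfl⟩).elim
        have : l = l' := H1.eq_of_mem (by omega) h2 h2'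
        subst this
        exact agree _ k _ _ (by have := (len l).2; omega) h3 h3')
    (by
      intro y
      have hne : (⋂ k, {x | (x, y) ∈ R k}).Nonempty := by
        refine IsCompact.nonempty_iInter_of_sequence_nonempty_isCompact_isClosed
          (fun k => {x | (x, y) ∈ R k}) ?_ ?_ ?_ ?_
        · intro k x hx
          exact Rsucc k hx
        · intro k
          rcases H2.exists_node k y with ⟨l, h1, ⟨z, hz, rfl⟩⟩ | ⟨l, h1, h2⟩
          · exact ⟨z.1, Or.inl ⟨l, h1, hz⟩⟩
          · obtain ⟨x, hx⟩ := cyl_nonempty (node l).1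
            exact ⟨x, Or.inr ⟨l, h1, hx, h2⟩⟩
        · exact ((Rcl 0).preimage (by fun_prop : Continuous fun x : X => (x, y))).isCompact
        · intro k
          exact (Rcl k).preimage (by fun_prop : Continuous fun x : X => (x, y))
      obtain ⟨x, hx⟩ := hne
      exact ⟨x, mem_iInter.2 fun k => mem_iInter.1 hx k⟩)
    (by
      intro x x' y hy hy'
      rw [mem_iInter] at hy hy'
      by_cases hx : ∃ l, y ∈ Prod.snd '' TT l
      · obtain ⟨l, hl⟩ := hx
        exact ((hT _ _).inj _ (cap_snd x y l hy hl) _ (cap_snd x' y l hy' hl)).2 rfl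
      · funext k
        rcases hy (k + 1) with ⟨l, -, h2⟩ | ⟨l, h1, h2, h3⟩
        · exact (hx ⟨l, _, h2, rfl⟩).elim
        rcases hy' (k + 1) with ⟨l', -, h2'⟩ | ⟨l', h1', h2', h3'⟩
        · exact (hx ⟨l', _, h2', rfl⟩).elim
        have : l = l' := H2.eq_of_mem (by omega) h3 h3'
        subst this
        exact agree _ k _ _ (by have := (len l).1; omega) h2 h2')
  refine ⟨h, fun x => ?_⟩
  have hxR : ∀ k, (x, h x) ∈ R k := fun k => mem_iInter.1 (hh x) k
  have capt1 : χ x ≠ 0 → ∃ l, x ∈ Prod.fst '' TT l := by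
    intro hx0
    by_contra hno
    push Not at hno
    have hnode : ∀ k, ∃ l : List ℕ, l.length = k ∧ x ∈ U l := by
      intro k
      rcases H1.exists_node k x with ⟨l, -, h2⟩ | h2
      · exact (hno l h2).elim
      · exact h2
    choose L hL1 hL2 using hnode
    obtain ⟨k, hk⟩ := cap1 x hx0 (fun k => (node (L k)).1) (fun k => (node (L k)).2)
      (fun k => hL2 k) (fun k => by have := len (L k); rw [hL1] at this; exact this)
    exact hno _ hk
  have capt2 : χ' (h x) ≠ 0 → ∃ l, h x ∈ Prod.snd '' TT l := by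
    intro hx0
    by_contra hno
    push Not at hno
    have hnode : ∀ k, ∃ l : List ℕ, l.length = k ∧ h x ∈ W l := by
      intro k
      rcases H2.exists_node k (h x) with ⟨l, -, h2⟩ | h2
      · exact (hno l h2).elim
      · exact h2
    choose L hL1 hL2 using hnode
    obtain ⟨k, hk⟩ := cap2 (h x) hx0 (fun k => (node (L k)).1) (fun k => (node (L k)).2)
      (fun k => hL2 k) (fun k => by have := len (L k); rw [hL1] at this; exact this)
    exact hno _ hk
  by_cases h0 : χ x = 0
  · by_contra hne
    have h1 : χ' (h x) ≠ 0 := fun h' => hne (by rw [h0, h'])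
    obtain ⟨l, hl⟩ := capt2 h1
    exact hne (hχ _ _ _ (cap_snd x (h x) l hxR hl))
  · obtain ⟨l, hl⟩ := capt1 h0
    exact hχ _ _ _ (cap_fst x (h x) l hxR hl)

end Pool.Agent.R337.BW
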